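import Pool.Agent.W5h11.PZ.T

/-! The saddle points. -/

set_option autoImplicit false

namespace Pool.Agent.W5h11.PZ

open Finset Real

theorem T0_cont {x y : ℝ} (hx : 0 < x) : ContinuousOn (T 0) (Set.Icc x y) := by
  have hK : 0 ≤ T 1 x := T_nonneg 1 x
  have key : ∀ a ∈ Set.Icc x y, ∀ b ∈ Set.Icc x y, a ≤ b → |T 0 a - T 0 b| ≤ T 1 x * |a - b| := by
    intro a ha b hb hab
    have ha0 : 0 < a := hx.trans_le ha.1
    have h1 := T_anti 0 ha0 hab
    have h2 := T_tangent 0 ha0 (hx.trans_le hb.1)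
    have h3 := T_anti 1 hx ha.1
    rw [abs_of_nonneg (by linarith), abs_of_nonpos (by linarith)]
    have h4 : T 1 a * (b - a) ≤ T 1 x * (b - a) := mul_le_mul_of_nonneg_right h3 (by linarith)
    simp only [zero_add] at h2
    linarith
  have : LipschitzOnWith ⟨T 1 x, hK⟩ (T 0) (Set.Icc x y) := by
    refine LipschitzOnWith.of_dist_le_mul fun a ha b hb => ?_
    rw [Real.dist_eq, Real.dist_eq]
    rcases le_total a b with h | h
    · exact key a ha b hb h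
    · rw [abs_sub_comm, abs_sub_comm a b]
      exact key b hb a ha h
  exact this.continuousOn

/-- the constant -/
noncomputable def A0 : ℝ := 1 + cu 1 * Z

theorem A0_ge : 1 ≤ A0 := by
  unfold A0
  have := mul_nonneg (cu_nonneg 1) Z_nonneg
  linarith

theorem exists_alpha (n : ℕ) (hn : 1 ≤ n) : ∃ a : ℝ, 1 / (2 * √n) ≤ a ∧ a ≤ A0 / √n ∧ T 0 a = n := by
  have hn1 : (1 : ℝ) ≤ n := by exact_mod_cast hn
  have hx : 1 ≤ √(n : ℝ) := Real.one_le_sqrt.2 hn1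
  have hx2 : √(n : ℝ) * √(n : ℝ) = n := Real.mul_self_sqrt (by positivity)
  have hA := A0_ge
  have h0 : 0 < 1 / (2 * √(n : ℝ)) := by positivity
  have h1 : 1 / (2 * √(n : ℝ)) ≤ A0 / √n := by
    rw [div_le_div_iff₀ (by positivity) (by positivity)]
    nlinarith
  have h2 : (n : ℝ) ≤ T 0 (1 / (2 * √n)) := by
    refine le_trans ?_ (T_ge 0 h0)
    have h3 : 1 / 2 ≤ exp (-(((0 + 1 : ℕ) : ℝ) * (1 / (2 * √n)))) := by
      have h4 := Real.add_one_le_exp (-(((0 + 1 : ℕ) : ℝ) * (1 / (2 * √n))))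
      have h5 : 1 / (2 * √(n : ℝ)) ≤ 1 / 2 := by
        apply one_div_le_one_div_of_le <;> linarith
      have h6 : (((0 + 1 : ℕ) : ℝ) * (1 / (2 * √(n : ℝ)))) = 1 / (2 * √n) := by simp
      rw [h6] at h4 ⊢
      linarith
    have h7 : ((0 + 1).factorial : ℝ) * exp (-(((0 + 1 : ℕ) : ℝ) * (1 / (2 * √n)))) /
        (1 / (2 * √(n : ℝ))) ^ (0 + 2) = exp (-(((0 + 1 : ℕ) : ℝ) * (1 / (2 * √n)))) * (4 * n) := by
      have : (1 / (2 * √(n : ℝ))) ^ (0 + 2) = 1 / (4 * n) := by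
        have h8 : (√(n : ℝ)) ^ 2 = n := Real.sq_sqrt (by positivity)
        rw [zero_add, div_pow, mul_pow, h8]
        norm_num
      rw [this, zero_add, Nat.factorial_one, Nat.cast_one, one_mul, div_div_eq_mul_div, div_one]
    rw [h7]
    nlinarith
  have h3 : T 0 (A0 / √n) ≤ n := by
    refine (T_le 0 (by positivity)).trans ?_
    have : (A0 / √(n : ℝ)) ^ (0 + 2) = A0 ^ 2 / n := by
      have h8 : (√(n : ℝ)) ^ 2 = n := Real.sq_sqrt (by positivity)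
      rw [zero_add, div_pow, h8]
    rw [this]
    have h4 : cu (0 + 1) * Z ≤ A0 ^ 2 := by
      have h5 : cu (0 + 1) * Z = A0 - 1 := by unfold A0; ring
      rw [h5]; nlinarith
    rw [div_div_eq_mul_div, div_le_iff₀ (by positivity)]
    nlinarith
  obtain ⟨a, ha, hTa⟩ := intermediate_value_Icc' h1 (T0_cont h0) (Set.mem_Icc.2 ⟨h3, h2⟩)
  exact ⟨a, ha.1, ha.2, hTa⟩

/-- upper bounds for `T j (α n)` -/
theorem T_up (j n : ℕ) (hn : 1 ≤ n) {a : ℝ} (ha : 1 / (2 * √(n : ℝ)) ≤ a) :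
    T j a ≤ cu (j + 1) * Z * 2 ^ (j + 2) * √(n : ℝ) ^ (j + 2) := by
  have hn1 : (1 : ℝ) ≤ n := by exact_mod_cast hn
  have hx : 1 ≤ √(n : ℝ) := Real.one_le_sqrt.2 hn1
  have h0 : 0 < 1 / (2 * √(n : ℝ)) := by positivity
  have hc := mul_nonneg (cu_nonneg (j + 1)) Z_nonneg
  refine (T_anti j h0 ha).trans ((T_le j h0).trans (le_of_eq ?_))
  rw [div_pow, one_pow, mul_pow]
  field_simp

theorem T1_lo (n : ℕ) (hn : 1 ≤ n) {a : ℝ} (h0 : 0 < a) (ha : a ≤ A0 / √(n : ℝ)) :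
    n * √(n : ℝ) / (A0 ^ 3 * exp (2 * A0)) ≤ T 1 a := by
  have hn1 : (1 : ℝ) ≤ n := by exact_mod_cast hn
  have hx : 1 ≤ √(n : ℝ) := Real.one_le_sqrt.2 hn1
  have hx2 : √(n : ℝ) * √(n : ℝ) = n := Real.mul_self_sqrt (by positivity)
  have hA := A0_ge
  refine le_trans ?_ (T_ge 1 h0)
  have h1 : a ≤ A0 := ha.trans (div_le_self (by linarith) hx)
  have h2 : exp (-(2 * A0)) ≤ exp (-(((1 + 1 : ℕ) : ℝ) * a)) := by
    apply Real.exp_le_exp.2
    push_cast; linarith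
  have h3 : a ^ (1 + 2) ≤ (A0 / √(n : ℝ)) ^ 3 := pow_le_pow_left₀ h0.le ha 3
  have h4 : n * √(n : ℝ) / (A0 ^ 3 * exp (2 * A0)) = exp (-(2 * A0)) / (A0 / √(n : ℝ)) ^ 3 := by
    rw [Real.exp_neg]
    generalize √(n : ℝ) = x at *
    rw [← hx2]
    have : x ≠ 0 := by linarith
    field_simp
  rw [h4]
  have h5 : (1 : ℝ) ≤ ((1 + 1).factorial : ℝ) := by norm_num [Nat.factorial]
  calc exp (-(2 * A0)) / (A0 / √(n : ℝ)) ^ 3 ≤ exp (-(((1 + 1 : ℕ) : ℝ) * a)) / a ^ (1 + 2) := by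
        gcongr
    _ ≤ _ := by
        gcongr
        nlinarith [exp_pos (-(((1 + 1 : ℕ) : ℝ) * a))]

/-- the saddle points -/
noncomputable def al (n : ℕ) : ℝ := if h : 1 ≤ n then (exists_alpha n h).choose else 1

theorem al_spec (n : ℕ) (hn : 1 ≤ n) : 1 / (2 * √(n : ℝ)) ≤ al n ∧ al n ≤ A0 / √(n : ℝ) ∧
    T 0 (al n) = n := by
  unfold al
  rw [dif_pos hn]
  exact (exists_alpha n hn).choose_spec

theorem al_pos (n : ℕ) (hn : 1 ≤ n) : 0 < al n := by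
  have hn1 : (1 : ℝ) ≤ n := by exact_mod_cast hn
  have hx : 1 ≤ √(n : ℝ) := Real.one_le_sqrt.2 hn1
  exact lt_of_lt_of_le (by positivity) (al_spec n hn).1

/-- constants -/
noncomputable def B1 : ℝ := A0 ^ 3 * exp (2 * A0)
/-- constants -/
noncomputable def B (j : ℕ) : ℝ := cu (j + 1) * Z * 2 ^ (j + 2)

theorem B1_pos : 0 < B1 := by
  have := A0_ge
  unfold B1; positivity

theorem B_nonneg (j : ℕ) : 0 ≤ B j := by
  unfold B
  have := mul_nonneg (cu_nonneg (j + 1)) Z_nonneg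
  positivity

theorem al_up (j n : ℕ) (hn : 1 ≤ n) : T j (al n) ≤ B j * √(n : ℝ) ^ (j + 2) :=
  T_up j n hn (al_spec n hn).1

theorem al_T1 (n : ℕ) (hn : 1 ≤ n) : n * √(n : ℝ) / B1 ≤ T 1 (al n) :=
  T1_lo n hn (al_pos n hn) (al_spec n hn).2.1

theorem al_step_lo (n i : ℕ) (hi : i < n) : i / T 1 (al n) ≤ al (n - i) - al n := by
  have h1 := T_tangent 0 (al_pos n (by omega)) (al_pos (n - i) (by omega))
  rw [(al_spec n (by omega)).2.2, (al_spec (n - i) (by omega)).2.2, Nat.cast_sub hi.le] at h1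
  have h2 := T_pos 1 (al_pos n (by omega))
  rw [div_le_iff₀ h2]
  simp only [zero_add] at h1
  linarith

theorem al_step_hi (n i : ℕ) (hn : 1 ≤ n) (hi : 2 * i ≤ n) :
    al (n - i) - al n ≤ i / T 1 (al n) * (1 + (16 * B1 ^ 2 * B 2) * i / n) := by
  have hn1 : (1 : ℝ) ≤ n := by exact_mod_cast hn
  have hx : 1 ≤ √(n : ℝ) := Real.one_le_sqrt.2 hn1
  have hx2 : √(n : ℝ) ^ 2 = n := Real.sq_sqrt (by positivity)
  have hin : i < n := by omega
  have hm : 1 ≤ n - i := by omega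
  have hlo := al_step_lo n i hin
  have hb1 := B1_pos
  have ha := al_pos n hn
  have hb := al_pos (n - i) hm
  have hT1 := T_pos 1 ha
  have hδ : 0 ≤ al (n - i) - al n := le_trans (by positivity) hlo
  have h1 := T_tangent 0 hb ha
  rw [(al_spec n hn).2.2, (al_spec (n - i) hm).2.2, Nat.cast_sub hin.le] at h1
  simp only [zero_add] at h1
  have h2 := T_tangent 1 ha hb
  norm_num at h2
  have h3 := al_up 2 n hn
  have h4 : n * √(n : ℝ) / (4 * B1) ≤ T 1 (al (n - i)) := by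
    refine le_trans ?_ (al_T1 (n - i) hm)
    have h5 : (n : ℝ) / 2 ≤ ((n - i : ℕ) : ℝ) := by
      rw [Nat.cast_sub hin.le]
      have : (2 : ℝ) * i ≤ n := by exact_mod_cast hi
      linarith
    have h6 : √(n : ℝ) / 2 ≤ √((n - i : ℕ) : ℝ) := by
      apply Real.le_sqrt_of_sq_le
      rw [div_pow, hx2]
      linarith
    rw [show n * √(n : ℝ) / (4 * B1) = (n / 2 * (√(n : ℝ) / 2)) / B1 by field_simp; norm_num]
    gcongr
  set δ := al (n - i) - al n with hδd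
  have h7 : T 1 (al (n - i)) * δ ≤ i := by linarith
  have h8 : n * √(n : ℝ) / (4 * B1) * δ ≤ i := (mul_le_mul_of_nonneg_right h4 hδ).trans h7
  have h9 : δ ≤ 4 * B1 * i / (n * √(n : ℝ)) := by
    rw [le_div_iff₀ (by positivity)]
    have h10 : n * √(n : ℝ) / (4 * B1) * δ = δ * (n * √(n : ℝ)) / (4 * B1) := by ring
    rw [h10, div_le_iff₀ (by positivity)] at h8
    linarith
  have h11 : δ ^ 2 ≤ 16 * B1 ^ 2 * i ^ 2 / n ^ 3 := by
    calc δ ^ 2 ≤ (4 * B1 * i / (n * √(n : ℝ))) ^ 2 := pow_le_pow_left₀ hδ h9 2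
      _ = 16 * B1 ^ 2 * i ^ 2 / (n ^ 2 * √(n : ℝ) ^ 2) := by
          rw [div_pow, mul_pow, mul_pow, mul_pow]; norm_num
      _ = _ := by rw [hx2]; ring
  have h12 : T 2 (al n) * δ ^ 2 ≤ 16 * B1 ^ 2 * B 2 * i ^ 2 / n := by
    have h13 : √(n : ℝ) ^ (2 + 2) = n ^ 2 := by
      rw [pow_add, hx2]; ring
    rw [h13] at h3
    calc T 2 (al n) * δ ^ 2 ≤ (B 2 * n ^ 2) * (16 * B1 ^ 2 * i ^ 2 / n ^ 3) := by
          have := B_nonneg 2
          gcongr
      _ = _ := by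
          have : (n : ℝ) ≠ 0 := by positivity
          field_simp
  have h14 : T 1 (al n) * δ ≤ i * (1 + (16 * B1 ^ 2 * B 2) * i / n) := by
    calc T 1 (al n) * δ ≤ (T 1 (al (n - i)) + T 2 (al n) * δ) * δ := by
          apply mul_le_mul_of_nonneg_right _ hδ
          linarith
      _ = T 1 (al (n - i)) * δ + T 2 (al n) * δ ^ 2 := by ring
      _ ≤ i + 16 * B1 ^ 2 * B 2 * i ^ 2 / n := by linarith
      _ = _ := by ring
  rw [div_mul_eq_mul_div, le_div_iff₀ hT1]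
  linarith

theorem al_tail (n j : ℕ) (hn : 1 ≤ n) (hj : j ≤ 1) :
    ∑' x : ℕ × ℕ, (if n < 2 * ks x then tm j (al n) x else 0) ≤
      (120 * 8 ^ 5 * 64 * ((cu 1 + cu 2) * Z)) / n := by
  have hn1 : (1 : ℝ) ≤ n := by exact_mod_cast hn
  have hx : 1 ≤ √(n : ℝ) := Real.one_le_sqrt.2 hn1
  have hx2 : √(n : ℝ) ^ 2 = n := Real.sq_sqrt (by positivity)
  have ha := al_pos n hn
  have hal := (al_spec n hn).1
  have hZ := Z_nonneg
  refine (T_tail j n ha).trans ?_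
  have h1 : T j (al n / 2) ≤ (cu 1 + cu 2) * Z * (4 * √(n : ℝ)) ^ 3 := by
    have h2 : 1 / (4 * √(n : ℝ)) ≤ al n / 2 := by
      rw [le_div_iff₀ (by norm_num)]
      refine le_trans (le_of_eq ?_) hal
      field_simp; norm_num
    have h3 : 0 < 1 / (4 * √(n : ℝ)) := by positivity
    refine (T_anti j h3 h2).trans ((T_le j h3).trans ?_)
    rw [div_pow, one_pow, div_div_eq_mul_div, div_one]
    have h4 : (4 * √(n : ℝ)) ^ (j + 2) ≤ (4 * √(n : ℝ)) ^ 3 :=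
      pow_le_pow_right₀ (by linarith) (by omega)
    have h5 : cu (j + 1) ≤ cu 1 + cu 2 := by
      have := cu_nonneg 1
      have := cu_nonneg 2
      interval_cases j
      · simpa using by linarith
      · simpa using by linarith
    have := cu_nonneg (j + 1)
    have h50 : 0 ≤ (cu 1 + cu 2) * Z := mul_nonneg (add_nonneg (cu_nonneg 1) (cu_nonneg 2)) hZ
    gcongr
  have h6 : exp (-(n * al n / 4)) ≤ 120 * 8 ^ 5 / √(n : ℝ) ^ 5 := by
    have h7 : √(n : ℝ) / 8 ≤ n * al n / 4 := by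
      have h8 : n * (1 / (2 * √(n : ℝ))) ≤ n * al n := by gcongr
      have h9 : n * (1 / (2 * √(n : ℝ))) = √(n : ℝ) / 2 := by
        generalize √(n : ℝ) = x at *
        rw [← hx2]
        have : x ≠ 0 := by linarith
        field_simp
      rw [h9] at h8
      linarith
    have h10 := Real.pow_div_factorial_le_exp (√(n : ℝ) / 8) (by positivity) 5
    have h11 : (√(n : ℝ) / 8) ^ 5 / (Nat.factorial 5 : ℝ) = √(n : ℝ) ^ 5 / (120 * 8 ^ 5) := by
      norm_num [Nat.factorial]; ring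
    rw [h11] at h10
    have h12 : exp (-(√(n : ℝ) / 8)) ≤ 120 * 8 ^ 5 / √(n : ℝ) ^ 5 := by
      rw [Real.exp_neg, inv_le_comm₀ (exp_pos _) (by positivity), inv_div]
      exact h10
    exact (Real.exp_le_exp.2 (by linarith)).trans h12
  calc exp (-(n * al n / 4)) * T j (al n / 2)
      ≤ (120 * 8 ^ 5 / √(n : ℝ) ^ 5) * ((cu 1 + cu 2) * Z * (4 * √(n : ℝ)) ^ 3) := by
        gcongr
        exact T_nonneg _ _
    _ = _ := by
        generalize √(n : ℝ) = x at *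
        rw [← hx2]
        have : x ≠ 0 := by linarith
        field_simp
        ring

/-- the constant -/
noncomputable def C3 : ℝ := 12 * Z * (cg 1 * W + cg 2 * W) + 2 * Z * (cg 3 * W) +
  (3 * (cg 2 * W) ^ 2 + 2 * (cg 1 * W) * (cg 3 * W)) * A0

theorem C3_nonneg : 0 ≤ C3 := by
  have h1 := cg_nonneg 1
  have h2 := cg_nonneg 2
  have h3 := cg_nonneg 3
  have h4 := W_nonneg
  have h5 := Z_nonneg
  have h6 := A0_ge
  unfold C3; positivity

theorem al_balance (n : ℕ) (hn : 1 ≤ n) :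
    |3 * (T 1 (al n) * al n ^ 3) ^ 2 - 2 * (T 0 (al n) * al n ^ 2) * (T 2 (al n) * al n ^ 4)| ≤
      C3 * al n ^ (3 / 4 : ℝ) := by
  have ha := al_pos n hn
  have hn1 : (1 : ℝ) ≤ n := by exact_mod_cast hn
  have hx : 1 ≤ √(n : ℝ) := Real.one_le_sqrt.2 hn1
  have hA := A0_ge
  have hZ := Z_nonneg
  have hW := W_nonneg
  have haA : al n ≤ A0 := (al_spec n hn).2.1.trans (div_le_self (by linarith) hx)
  have hq : al n ^ (3 / 4 : ℝ) ≤ A0 := by
    calc al n ^ (3 / 4 : ℝ) ≤ A0 ^ (3 / 4 : ℝ) := by gcongr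
      _ ≤ A0 ^ (1 : ℝ) := Real.rpow_le_rpow_of_exponent_le hA (by norm_num)
      _ = A0 := Real.rpow_one _
  have hq0 : 0 ≤ al n ^ (3 / 4 : ℝ) := by positivity
  have key : ∀ j : ℕ, |T j (al n) * al n ^ (j + 2) - ((j + 1).factorial : ℝ) * Z| ≤
      cg (j + 1) * W * al n ^ (3 / 4 : ℝ) := by
    intro j
    have h := T_approx j ha
    have hp : 0 < al n ^ (j + 2) := by positivity
    have h1 : T j (al n) * al n ^ (j + 2) - ((j + 1).factorial : ℝ) * Z =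
        (T j (al n) - ((j + 1).factorial : ℝ) * Z / al n ^ (j + 2)) * al n ^ (j + 2) := by
      field_simp
    rw [h1, abs_mul, abs_of_pos hp]
    rwa [le_div_iff₀ hp] at h
  have h0 := key 0
  have h1 := key 1
  have h2 := key 2
  norm_num [Nat.factorial] at h0 h1 h2
  generalize al n ^ (3 / 4 : ℝ) = q at *
  generalize T 0 (al n) * al n ^ 2 = t0 at *
  generalize T 1 (al n) * al n ^ 3 = t1 at *
  generalize T 2 (al n) * al n ^ 4 = t2 at *
  have hc1 : 0 ≤ cg 1 * W := mul_nonneg (cg_nonneg 1) hW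
  have hc2 : 0 ≤ cg 2 * W := mul_nonneg (cg_nonneg 2) hW
  have hc3 : 0 ≤ cg 3 * W := mul_nonneg (cg_nonneg 3) hW
  unfold C3
  generalize cg 1 * W = c1 at *
  generalize cg 2 * W = c2 at *
  generalize cg 3 * W = c3 at *
  have e : 3 * t1 ^ 2 - 2 * t0 * t2 = 12 * Z * (t1 - 2 * Z) + 3 * (t1 - 2 * Z) ^ 2 -
      12 * Z * (t0 - Z) - 2 * Z * (t2 - 6 * Z) - 2 * ((t0 - Z) * (t2 - 6 * Z)) := by ring
  rw [e]
  have b1 : |12 * Z * (t1 - 2 * Z)| ≤ 12 * Z * (c2 * q) := by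
    rw [abs_mul, abs_of_nonneg (by positivity : 0 ≤ 12 * Z)]; gcongr
  have b2 : |3 * (t1 - 2 * Z) ^ 2| ≤ 3 * (c2 * q) ^ 2 := by
    rw [abs_mul, abs_pow, abs_of_nonneg (by norm_num : (0 : ℝ) ≤ 3)]; gcongr
  have b3 : |12 * Z * (t0 - Z)| ≤ 12 * Z * (c1 * q) := by
    rw [abs_mul, abs_of_nonneg (by positivity : 0 ≤ 12 * Z)]; gcongr
  have b4 : |2 * Z * (t2 - 6 * Z)| ≤ 2 * Z * (c3 * q) := by
    rw [abs_mul, abs_of_nonneg (by positivity : 0 ≤ 2 * Z)]; gcongr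
  have b5 : |2 * ((t0 - Z) * (t2 - 6 * Z))| ≤ 2 * ((c1 * q) * (c3 * q)) := by
    rw [abs_mul, abs_mul, abs_of_nonneg (by norm_num : (0 : ℝ) ≤ 2)]; gcongr
  have b6 : q * q ≤ A0 * q := mul_le_mul_of_nonneg_right hq hq0
  have b7 : 3 * (c2 * q) ^ 2 ≤ 3 * c2 ^ 2 * (A0 * q) := by
    calc 3 * (c2 * q) ^ 2 = 3 * c2 ^ 2 * (q * q) := by ring
      _ ≤ _ := by gcongr
  have b8 : 2 * ((c1 * q) * (c3 * q)) ≤ 2 * c1 * c3 * (A0 * q) := by
    calc 2 * ((c1 * q) * (c3 * q)) = 2 * c1 * c3 * (q * q) := by ring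
      _ ≤ _ := by gcongr
  have tri : ∀ x1 x2 x3 x4 x5 : ℝ, |x1 + x2 - x3 - x4 - x5| ≤ |x1| + |x2| + |x3| + |x4| + |x5| := by
    intro x1 x2 x3 x4 x5
    have := abs_sub (x1 + x2 - x3 - x4) x5
    have := abs_sub (x1 + x2 - x3) x4
    have := abs_sub (x1 + x2) x3
    have := abs_add_le x1 x2
    linarith
  refine (tri _ _ _ _ _).trans ?_
  calc _ ≤ 12 * Z * (c2 * q) + 3 * c2 ^ 2 * (A0 * q) + 12 * Z * (c1 * q) + 2 * Z * (c3 * q) +
        2 * c1 * c3 * (A0 * q) := by linarith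
    _ = _ := by ring

theorem al_bal (n : ℕ) (hn : 1 ≤ n) :
    |3 / 4 * T 1 (al n) / n - T 2 (al n) / (2 * T 1 (al n))| ≤
      (16 * C3 * A0 * B1) * (n : ℝ) ^ (1 / 8 : ℝ) := by
  have ha := al_pos n hn
  have hn1 : (1 : ℝ) ≤ n := by exact_mod_cast hn
  have hn0 : (0 : ℝ) ≤ n := by positivity
  have hA := A0_ge
  have hB := B1_pos
  have hC := C3_nonneg
  have hb := al_balance n hn
  have hT1 := al_T1 n hn
  obtain ⟨hlo, hhi, hT0⟩ := al_spec n hn
  have hT1p := T_pos 1 ha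
  set y : ℝ := (n : ℝ) ^ (1 / 8 : ℝ) with hy
  have hy1 : 1 ≤ y := Real.one_le_rpow hn1 (by norm_num)
  have hy8 : (n : ℝ) = y ^ 8 := by
    rw [hy, ← Real.rpow_natCast, ← Real.rpow_mul hn0]; norm_num
  have hy4 : √(n : ℝ) = y ^ 4 := by
    rw [hy8]; rw [show y ^ 8 = (y ^ 4) ^ 2 by ring]; exact Real.sqrt_sq (by positivity)
  have hq : al n ^ (3 / 4 : ℝ) ≤ A0 / y ^ 3 := by
    have h1 : al n ^ (3 / 4 : ℝ) ≤ (A0 / y ^ 4) ^ (3 / 4 : ℝ) := by
      rw [hy4] at hhi; gcongr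
    have h2 : (y ^ 4) ^ (3 / 4 : ℝ) = y ^ 3 := by
      rw [← Real.rpow_natCast, ← Real.rpow_natCast, ← Real.rpow_mul (by positivity)]; norm_num
    rw [Real.div_rpow (by positivity) (by positivity), h2] at h1
    refine h1.trans ?_
    have h3 : A0 ^ (3 / 4 : ℝ) ≤ A0 := by
      calc A0 ^ (3 / 4 : ℝ) ≤ A0 ^ (1 : ℝ) := Real.rpow_le_rpow_of_exponent_le hA (by norm_num)
        _ = A0 := Real.rpow_one _
    gcongr
  rw [hT0] at hb
  rw [hy4, hy8] at hT1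
  rw [hy4] at hlo
  rw [hy8] at hb ⊢
  generalize al n ^ (3 / 4 : ℝ) = q at *
  generalize T 1 (al n) = t at *
  generalize T 2 (al n) = u at *
  generalize al n = a at *
  have e : 3 / 4 * t / y ^ 8 - u / (2 * t) =
      (3 * (t * a ^ 3) ^ 2 - 2 * (y ^ 8 * a ^ 2) * (u * a ^ 4)) / (a ^ 6 * (4 * y ^ 8 * t)) := by
    have : y ≠ 0 := by positivity
    field_simp
    ring
  rw [e, abs_div, abs_of_pos (by positivity : 0 < a ^ 6 * (4 * y ^ 8 * t)), div_le_iff₀ (by positivity)]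
  refine hb.trans ?_
  have h1 : (1 / (2 * y ^ 4)) ^ 6 ≤ a ^ 6 := pow_le_pow_left₀ (by positivity) hlo 6
  calc C3 * q ≤ C3 * (A0 / y ^ 3) := by gcongr
    _ = 16 * C3 * A0 * B1 * y * ((1 / (2 * y ^ 4)) ^ 6 * (4 * y ^ 8 * (y ^ 8 * y ^ 4 / B1))) := by
        have : y ≠ 0 := by positivity
        field_simp
        norm_num
        ring
    _ ≤ _ := by gcongr

theorem good : ∃ (α : ℕ → ℝ) (C : ℝ), Good α C := by
  have hA := A0_ge
  have hB := B1_pos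
  have h1 := B_nonneg 1
  have h2 := B_nonneg 2
  have h3 := B_nonneg 3
  have h4 := B_nonneg 4
  have hC3 := C3_nonneg
  have hs : 0 ≤ 16 * B1 ^ 2 * B 2 := by positivity
  have hb : 0 ≤ 16 * C3 * A0 * B1 := by positivity
  have ht : 0 ≤ 120 * 8 ^ 5 * 64 * ((cu 1 + cu 2) * Z) := by
    have := cu_nonneg 1
    have := cu_nonneg 2
    have := Z_nonneg
    positivity
  refine ⟨al, 2 + A0 + B1 + B 1 + B 2 + B 3 + B 4 + 16 * B1 ^ 2 * B 2 + 16 * C3 * A0 * B1 +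
    120 * 8 ^ 5 * 64 * ((cu 1 + cu 2) * Z), ?_⟩
  set C := 2 + A0 + B1 + B 1 + B 2 + B 3 + B 4 + 16 * B1 ^ 2 * B 2 + 16 * C3 * A0 * B1 +
    120 * 8 ^ 5 * 64 * ((cu 1 + cu 2) * Z) with hC
  have sq : ∀ n : ℕ, √(n : ℝ) ^ 2 = n := fun n => Real.sq_sqrt (by positivity)
  have hge : ∀ n : ℕ, 1 ≤ n → (1 : ℝ) ≤ n ∧ 1 ≤ √(n : ℝ) := fun n hn => by
    have hn1 : (1 : ℝ) ≤ n := by exact_mod_cast hn
    exact ⟨hn1, Real.one_le_sqrt.2 hn1⟩
  constructor
  · linarith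
  · exact fun j a ha => T_summable j ha
  · exact al_pos
  · intro n hn
    obtain ⟨hn1, hx⟩ := hge n hn
    refine le_trans ?_ (al_spec n hn).1
    apply one_div_le_one_div_of_le (by positivity)
    gcongr
    linarith
  · intro n hn
    obtain ⟨hn1, hx⟩ := hge n hn
    refine (al_spec n hn).2.1.trans ?_
    gcongr
    linarith
  · exact fun n hn => (al_spec n hn).2.2
  · intro m n hm hmn
    have h := al_step_lo n (n - m) (by omega)
    have h0 : 0 ≤ ((n - m : ℕ) : ℝ) / T 1 (al n) := div_nonneg (by positivity) (T_nonneg _ _)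
    rw [show n - (n - m) = m by omega] at h
    linarith
  · exact al_step_lo
  · intro n i hn hi
    obtain ⟨hn1, hx⟩ := hge n hn
    refine (al_step_hi n i hn hi).trans ?_
    have := T_pos 1 (al_pos n hn)
    gcongr
    linarith
  · intro n hn
    obtain ⟨hn1, hx⟩ := hge n hn
    refine le_trans ?_ (al_T1 n hn)
    gcongr
    linarith
  · intro n hn
    obtain ⟨hn1, hx⟩ := hge n hn
    refine (al_up 1 n hn).trans ?_
    rw [show √(n : ℝ) ^ (1 + 2) = n * √(n : ℝ) by rw [show 1 + 2 = 2 + 1 by norm_num, pow_succ, sq n]]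
    gcongr
    linarith
  · intro n hn
    obtain ⟨hn1, hx⟩ := hge n hn
    refine (al_up 2 n hn).trans ?_
    rw [show √(n : ℝ) ^ (2 + 2) = n ^ 2 by rw [pow_add, sq n]; ring]
    gcongr
    linarith
  · intro n hn
    obtain ⟨hn1, hx⟩ := hge n hn
    refine (al_up 3 n hn).trans ?_
    rw [show √(n : ℝ) ^ (3 + 2) = n ^ 2 * √(n : ℝ) by
      rw [show 3 + 2 = 2 + 2 + 1 by norm_num, pow_add, pow_add, sq n]; ring]
    gcongr
    linarith
  · intro n hn
    obtain ⟨hn1, hx⟩ := hge n hn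
    refine (al_up 4 n hn).trans ?_
    rw [show √(n : ℝ) ^ (4 + 2) = n ^ 3 by
      rw [show 4 + 2 = 2 + 2 + 2 by norm_num, pow_add, pow_add, sq n]; ring]
    gcongr
    linarith
  · intro n hn
    refine (al_bal n hn).trans ?_
    gcongr
    linarith
  · intro n j hn hj
    refine (al_tail n j hn hj).trans ?_
    gcongr
    linarith

end Pool.Agent.W5h11.PZ
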