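import Pool.Agent.W5h11.PZ.Defs
import Pool.Agent.H581R3.Core.Beads

/-!
# Many partitions of `n + t w` from the `t`-cores of size `n` (tasks C and C')
-/

set_option autoImplicit false

namespace Pool.Agent.W5h11.PZ

open Finset Pool.Agent.H581R3

section beads

variable {t w : ℕ} {X Y : Finset ℕ}

/-- A set of beads which contains the residues and is closed under pushing down. -/
def Closed (t : ℕ) (X : Finset ℕ) : Prop := (∀ r, r < t → r ∈ X) ∧ ∀ x ∈ X, t ≤ x → x - t ∈ X

/-- The top bead on the runner `r`. -/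
def top (t : ℕ) (X : Finset ℕ) (r : ℕ) : ℕ := (X.filter fun x => x % t = r).sup id

theorem Closed.down (h : Closed t X) : ∀ k x, x + t * k ∈ X → x ∈ X := by
  intro k
  induction k with
  | zero => intro x hx; simpa using hx
  | succ k ih =>
    intro x hx
    apply ih
    have h1 := h.2 _ hx (by rw [Nat.mul_succ]; omega)
    have h2 : x + t * (k + 1) - t = x + t * k := by rw [Nat.mul_succ]; omega
    rwa [h2] at h1

theorem le_top {x : ℕ} (hx : x ∈ X) : x ≤ top t X (x % t) := by
  unfold top
  exact le_sup (f := id) (s := X.filter fun y => y % t = x % t) (mem_filter.mpr ⟨hx, rfl⟩)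

theorem Closed.top_mem (h : Closed t X) {r : ℕ} (hr : r < t) :
    top t X r ∈ X ∧ top t X r % t = r := by
  have hne : (X.filter fun x => x % t = r).Nonempty :=
    ⟨r, mem_filter.mpr ⟨h.1 r hr, Nat.mod_eq_of_lt hr⟩⟩
  have h1 : top t X r ∈ X.filter fun x => x % t = r := by
    obtain ⟨y, hy, hy'⟩ := exists_mem_eq_sup _ hne (id : ℕ → ℕ)
    unfold top
    rw [hy']
    exact hy
  exact mem_filter.mp h1

theorem Closed.mem_iff (h : Closed t X) (ht : 0 < t) (x : ℕ) : x ∈ X ↔ x ≤ top t X (x % t) := by
  refine ⟨le_top, fun hx => ?_⟩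
  obtain ⟨h1, h2⟩ := h.top_mem (Nat.mod_lt x ht)
  obtain ⟨k, hk⟩ : t ∣ top t X (x % t) - x :=
    Nat.dvd_of_mod_eq_zero (Nat.sub_mod_eq_zero_of_mod_eq h2)
  apply h.down k
  rw [← hk]
  rwa [Nat.add_sub_cancel' hx]

theorem Closed.notMem (h : Closed t X) (ht : 0 < t) {r k : ℕ} (hr : r < t) (hk : 1 ≤ k) :
    top t X r + t * k ∉ X := by
  intro hm
  have h1 := le_top (t := t) hm
  rw [Nat.add_mul_mod_self_left, (h.top_mem hr).2] at h1
  have : 0 < t * k := by positivity
  omega

/-- Move the top beads of the runners `r` and `s` up by `a` and `w - a` places. -/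
def mv (t w : ℕ) (X : Finset ℕ) (r s a : ℕ) : Finset ℕ :=
  insert (top t X r + t * a) (insert (top t X s + t * (w - a))
    ((X.erase (top t X r)).erase (top t X s)))

theorem mem_mv {r s a x : ℕ} : x ∈ mv t w X r s a ↔
    x = top t X r + t * a ∨ x = top t X s + t * (w - a) ∨
      (x ≠ top t X s ∧ x ≠ top t X r ∧ x ∈ X) := by
  unfold mv
  rw [mem_insert, mem_insert, mem_erase, mem_erase]

/-- The standing assumptions on `r, s, a`. -/
structure Ok (t w r s a : ℕ) : Prop where
  rs : r < s
  st : s < t
  a1 : 1 ≤ a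
  aw : a + 1 ≤ w

section mvlemmas

variable {r s a : ℕ}

theorem modA (h : Closed t X) (o : Ok t w r s a) : (top t X r + t * a) % t = r := by
  rw [Nat.add_mul_mod_self_left]
  exact (h.top_mem (o.rs.trans o.st)).2

theorem modB (h : Closed t X) (o : Ok t w r s a) : (top t X s + t * (w - a)) % t = s := by
  rw [Nat.add_mul_mod_self_left]
  exact (h.top_mem o.st).2

theorem notA (h : Closed t X) (o : Ok t w r s a) : top t X r + t * a ∉ X :=
  h.notMem (lt_of_le_of_lt (Nat.zero_le _) o.st) (o.rs.trans o.st) o.a1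

theorem notB (h : Closed t X) (o : Ok t w r s a) : top t X s + t * (w - a) ∉ X :=
  h.notMem (lt_of_le_of_lt (Nat.zero_le _) o.st) o.st (by have := o.aw; omega)

theorem AneB (h : Closed t X) (o : Ok t w r s a) :
    top t X r + t * a ≠ top t X s + t * (w - a) := by
  intro e
  have h1 := modA h o
  rw [e, modB h o] at h1
  have := o.rs
  omega

theorem topne (h : Closed t X) (o : Ok t w r s a) : top t X s ≠ top t X r := by
  intro e
  have h1 := (h.top_mem o.st).2
  rw [e, (h.top_mem (o.rs.trans o.st)).2] at h1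
  have := o.rs
  omega

theorem notA' (h : Closed t X) (o : Ok t w r s a) : top t X r + t * a ∉
    insert (top t X s + t * (w - a)) ((X.erase (top t X r)).erase (top t X s)) := by
  rw [mem_insert, mem_erase, mem_erase]
  rintro (h1 | h1)
  · exact AneB h o h1
  · exact notA h o h1.2.2

theorem notB' (h : Closed t X) (o : Ok t w r s a) : top t X s + t * (w - a) ∉
    (X.erase (top t X r)).erase (top t X s) := by
  rw [mem_erase, mem_erase]
  intro h1
  exact notB h o h1.2.2

theorem card_mv (h : Closed t X) (o : Ok t w r s a) : (mv t w X r s a).card = X.card := by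
  unfold mv
  have h1 := (h.top_mem (o.rs.trans o.st)).1
  have h2 : top t X s ∈ X.erase (top t X r) := mem_erase.mpr ⟨topne h o, (h.top_mem o.st).1⟩
  rw [card_insert_of_notMem (notA' h o), card_insert_of_notMem (notB' h o),
    card_erase_add_one h2, card_erase_add_one h1]

theorem sum_mv (h : Closed t X) (o : Ok t w r s a) :
    ∑ y ∈ mv t w X r s a, y = ∑ x ∈ X, x + t * w := by
  unfold mv
  have h1 := (h.top_mem (o.rs.trans o.st)).1
  have h2 : top t X s ∈ X.erase (top t X r) := mem_erase.mpr ⟨topne h o, (h.top_mem o.st).1⟩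
  rw [sum_insert (notA' h o), sum_insert (notB' h o), ← add_sum_erase X (fun x => x) h1,
    ← add_sum_erase (X.erase (top t X r)) (fun x => x) h2]
  have h3 : t * w = t * a + t * (w - a) := by
    rw [← Nat.mul_add]
    congr 1
    have := o.aw
    omega
  rw [h3]
  omega

theorem moved (h : Closed t X) (o : Ok t w r s a) :
    ((mv t w X r s a).filter fun z => t ≤ z ∧ z - t ∉ mv t w X r s a) =
      {top t X r + t * a, top t X s + t * (w - a)} := by
  have ht : 0 < t := lt_of_le_of_lt (Nat.zero_le _) o.st
  have hrt : r < t := o.rs.trans o.st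
  have ha := o.a1
  have haw := o.aw
  have hA : (top t X r + t * a) - t = top t X r + t * (a - 1) := by
    obtain ⟨b, rfl⟩ : ∃ b, a = b + 1 := ⟨a - 1, by omega⟩
    rw [Nat.mul_succ, Nat.add_sub_cancel]
    omega
  have hB : (top t X s + t * (w - a)) - t = top t X s + t * (w - a - 1) := by
    obtain ⟨b, hb⟩ : ∃ b, w - a = b + 1 := ⟨w - a - 1, by omega⟩
    rw [hb, Nat.mul_succ, Nat.add_sub_cancel]
    omega
  have hA1 : t ≤ top t X r + t * a := by
    have : t * 1 ≤ t * a := Nat.mul_le_mul_left _ ha
    omega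
  have hB1 : t ≤ top t X s + t * (w - a) := by
    have : t * 1 ≤ t * (w - a) := Nat.mul_le_mul_left _ (by omega)
    omega
  have hr1 := (h.top_mem hrt).2
  have hs1 := (h.top_mem o.st).2
  ext z
  rw [mem_filter, mem_insert, mem_singleton]
  constructor
  · rintro ⟨h1, h2, h3⟩
    rcases mem_mv.mp h1 with h4 | h4 | ⟨h4, h5, h6⟩
    · exact Or.inl h4
    · exact Or.inr h4
    · exfalso
      apply h3
      rw [mem_mv]
      refine Or.inr (Or.inr ⟨?_, ?_, h.2 z h6 h2⟩)
      · intro h7
        have h8 : z = top t X s + t * 1 := by omega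
        exact h.notMem ht o.st le_rfl (h8 ▸ h6)
      · intro h7
        have h8 : z = top t X r + t * 1 := by omega
        exact h.notMem ht hrt le_rfl (h8 ▸ h6)
  · rintro (rfl | rfl)
    · refine ⟨mem_mv.mpr (Or.inl rfl), hA1, ?_⟩
      rw [hA, mem_mv]
      rintro (h1 | h1 | ⟨h1, h2, h3⟩)
      · have : t * (a - 1) < t * a := Nat.mul_lt_mul_of_pos_left (by omega) ht
        omega
      · have h4 := congrArg (fun y => y % t) h1
        simp only [Nat.add_mul_mod_self_left, hr1, hs1] at h4
        have := o.rs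
        omega
      · rcases Nat.eq_zero_or_pos (a - 1) with h5 | h5
        · rw [h5] at h2
          exact h2 (by simp)
        · exact h.notMem ht hrt h5 h3
    · refine ⟨mem_mv.mpr (Or.inr (Or.inl rfl)), hB1, ?_⟩
      rw [hB, mem_mv]
      rintro (h1 | h1 | ⟨h1, h2, h3⟩)
      · have h4 := congrArg (fun y => y % t) h1
        simp only [Nat.add_mul_mod_self_left, hr1, hs1] at h4
        have := o.rs
        omega
      · have : t * (w - a - 1) < t * (w - a) := Nat.mul_lt_mul_of_pos_left (by omega) ht
        omega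
      · rcases Nat.eq_zero_or_pos (w - a - 1) with h5 | h5
        · rw [h5] at h1
          exact h1 (by simp)
        · exact h.notMem ht o.st h5 h3

theorem rest (h : Closed t X) (o : Ok t w r s a) :
    ((mv t w X r s a).erase (top t X r + t * a)).erase (top t X s + t * (w - a)) =
      (X.erase (top t X r)).erase (top t X s) := by
  unfold mv
  rw [erase_insert (notA' h o), erase_insert (notB' h o)]

/-- The top bead is the least number of its class which is missing in the rest. -/
theorem top_le {X' : Finset ℕ} {p q p' q' c : ℕ} (h' : Closed t X') (hc : c < t)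
    (hq : q < t) (hp : p < t)
    (hcc : top t X c = p' ∨ top t X c = q') (hm : top t X c % t = c)
    (e : (X.erase p').erase q' = (X'.erase (top t X' p)).erase (top t X' q)) :
    top t X' c ≤ top t X c := by
  have ht : 0 < t := lt_of_le_of_lt (Nat.zero_le _) hc
  by_contra hlt
  push Not at hlt
  have h1 : top t X c ∈ X' := by
    rw [h'.mem_iff ht, hm]
    exact hlt.le
  have h2 : top t X c ∈ (X'.erase (top t X' p)).erase (top t X' q) := by
    rw [mem_erase, mem_erase]
    refine ⟨?_, ?_, h1⟩
    · intro h3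
      have h4 : c = q := by rw [← hm, h3, (h'.top_mem hq).2]
      rw [h4] at h3 hlt
      omega
    · intro h3
      have h4 : c = p := by rw [← hm, h3, (h'.top_mem hp).2]
      rw [h4] at h3 hlt
      omega
  rw [← e, mem_erase, mem_erase] at h2
  rcases hcc with h3 | h3
  · exact h2.2.1 h3
  · exact h2.1 h3

theorem mv_inj {X' : Finset ℕ} {r' s' a' : ℕ} (h : Closed t X) (o : Ok t w r s a)
    (h' : Closed t X') (o' : Ok t w r' s' a') (e : mv t w X r s a = mv t w X' r' s' a') :
    X = X' ∧ r = r' ∧ s = s' ∧ a = a' := by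
  have ht : 0 < t := lt_of_le_of_lt (Nat.zero_le _) o.st
  have hrt : r < t := o.rs.trans o.st
  have hrt' : r' < t := o'.rs.trans o'.st
  have e1 : ({top t X r + t * a, top t X s + t * (w - a)} : Finset ℕ) =
      {top t X' r' + t * a', top t X' s' + t * (w - a')} := by
    rw [← moved h o, ← moved h' o', e]
  have hA := modA h o
  have hB := modB h o
  have hA' := modA h' o'
  have hB' := modB h' o'
  have hrs := o.rs
  have hrs' := o'.rs
  have m1 : top t X r + t * a ∈ ({top t X' r' + t * a', top t X' s' + t * (w - a')} : Finset ℕ) := by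
    rw [← e1]; simp
  have m2 : top t X s + t * (w - a) ∈
      ({top t X' r' + t * a', top t X' s' + t * (w - a')} : Finset ℕ) := by
    rw [← e1]; simp
  rw [mem_insert, mem_singleton] at m1 m2
  have hboth : top t X r + t * a = top t X' r' + t * a' ∧
      top t X s + t * (w - a) = top t X' s' + t * (w - a') := by
    rcases m1 with m1 | m1
    · rcases m2 with m2 | m2
      · exact absurd (m1.trans m2.symm) (AneB h o)
      · exact ⟨m1, m2⟩
    · rcases m2 with m2 | m2
      · exfalso
        rw [m1, hB'] at hA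
        rw [m2, hA'] at hB
        omega
      · exact absurd (m1.trans m2.symm) (AneB h o)
  obtain ⟨eA, eB⟩ := hboth
  have er : r = r' := by rw [← hA, eA, hA']
  have es : s = s' := by rw [← hB, eB, hB']
  subst er es
  have e2 : (X.erase (top t X r)).erase (top t X s) =
      (X'.erase (top t X' r)).erase (top t X' s) := by
    rw [← rest h o, ← rest h' o', e, eA, eB]
  have tr : top t X r = top t X' r :=
    le_antisymm
      (top_le h hrt o.st hrt (Or.inl rfl) (h'.top_mem hrt).2 e2.symm)
      (top_le h' hrt o.st hrt (Or.inl rfl) (h.top_mem hrt).2 e2)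
  have ts : top t X s = top t X' s :=
    le_antisymm
      (top_le h o.st o.st hrt (Or.inr rfl) (h'.top_mem o.st).2 e2.symm)
      (top_le h' o.st o.st hrt (Or.inr rfl) (h.top_mem o.st).2 e2)
  refine ⟨?_, rfl, rfl, ?_⟩
  · have h1 : top t X s ∈ X.erase (top t X r) := mem_erase.mpr ⟨topne h o, (h.top_mem o.st).1⟩
    have h1' : top t X' s ∈ X'.erase (top t X' r) :=
      mem_erase.mpr ⟨topne h' o', (h'.top_mem o.st).1⟩
    rw [← insert_erase (h.top_mem hrt).1, ← insert_erase h1, e2, tr, ts, insert_erase h1',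
      insert_erase (h'.top_mem hrt).1]
  · rw [tr] at eA
    exact Nat.eq_of_mul_eq_mul_left ht (by omega)

end mvlemmas

end beads

section count

theorem closed_beads {n N t : ℕ} {f : ℕ → ℕ} (hf : Core.IsPartition n f) (hN : n + t ≤ N)
    (hc : Core.IsCore t f) : Closed t (Core.beads N f) := by
  refine ⟨fun r hrt => ?_, fun x hx htx => Core.push_down hf (by omega) hc hx htx⟩
  unfold Core.beads
  rw [mem_image]
  refine ⟨N - 1 - r, mem_range.mpr (by omega), ?_⟩
  unfold Core.beta
  rw [hf.2.1 _ (by omega)]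
  omega

theorem beads_inj {N n : ℕ} (hN : n ≤ N) {f g : ℕ → ℕ} (hf : Core.IsPartition n f)
    (hg : Core.IsPartition n g) (hfg : Core.beads N f = Core.beads N g) : f = g := by
  have key : ∀ i, i < N → (∀ k, k < i → f k = g k) → f i = g i := by
    intro i hi hk
    have aux : ∀ f g : ℕ → ℕ, Antitone f → Antitone g → Core.beads N f = Core.beads N g →
        (∀ k, k < i → f k = g k) → f i ≤ g i := by
      intro f g hf hg hfg hk
      have h1 : Core.beta N f i ∈ Core.beads N g := by
        rw [← hfg]
        unfold Core.beads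
        exact mem_image_of_mem _ (mem_range.mpr hi)
      unfold Core.beads at h1
      rw [mem_image] at h1
      obtain ⟨k, hkN, hk'⟩ := h1
      rw [mem_range] at hkN
      have h2 : i ≤ k := by
        by_contra h
        push Not at h
        have h3 := Core.beta_lt hf h hi
        have h4 : Core.beta N g k = Core.beta N f k := by
          unfold Core.beta; rw [hk k h]
        omega
      have h3 : Core.beta N g k ≤ Core.beta N g i := by
        rcases Nat.eq_or_lt_of_le h2 with h4 | h4
        · rw [h4]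
        · exact (Core.beta_lt hg h4 hkN).le
      unfold Core.beta at hk' h3
      omega
    exact le_antisymm (aux f g hf.1 hg.1 hfg hk)
      (aux g f hg.1 hf.1 hfg.symm (fun k h => (hk k h).symm))
  funext i
  by_cases hi : i < N
  · induction i using Nat.strong_induction_on with
    | _ i ih => exact key i hi fun k hk => ih k hk (by omega)
  · rw [hf.2.1 i (by omega), hg.2.1 i (by omega)]

/-- The index set of the moves. -/
def idx (t w : ℕ) : Finset ((Σ _ : ℕ, ℕ) × ℕ) := ((range t).sigma fun s => range s) ×ˢ Icc 1 (w - 1)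

theorem card_idx (t w : ℕ) : (idx t w).card = t.choose 2 * (w - 1) := by
  unfold idx
  rw [card_product, card_sigma, Nat.card_Icc, Nat.add_sub_cancel]
  congr 1
  simp only [card_range]
  rw [Finset.sum_range_id, Nat.choose_two_right]

theorem cores_mul_le (t w n : ℕ) :
    Core.numCores t n * (t.choose 2 * (w - 1)) ≤ Core.numPartitions (n + t * w) := by
  classical
  rcases Nat.eq_zero_or_pos (t.choose 2 * (w - 1)) with h0 | h0
  · rw [h0]; simp
  have hw : 1 ≤ w := by
    by_contra h
    have : w = 0 := by omega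
    subst this
    simp at h0
  obtain ⟨N, hN⟩ : ∃ N, N = n + t * w := ⟨_, rfl⟩
  have hNt : n + t ≤ N := by
    have : t * 1 ≤ t * w := Nat.mul_le_mul_left _ hw
    omega
  let Z : Set (Finset ℕ) := {Y | Y.card = N ∧ ∑ y ∈ Y, y = (n + t * w) + ∑ i ∈ range N, i}
  have hZsub : Z ⊆ (Core.beads N) '' {f | Core.IsPartition (n + t * w) f} := by
    rintro Y ⟨h1, h2⟩
    obtain ⟨g, hg1, hg2⟩ := Core.exists_partition Y h1 h2
    exact ⟨g, hg1, hg2⟩
  have hZfin : Z.Finite := ((Core.finite_partitions (n + t * w)).image _).subset hZsub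
  have hZcard : Z.ncard ≤ Core.numPartitions (n + t * w) :=
    (Set.ncard_le_ncard hZsub ((Core.finite_partitions (n + t * w)).image _)).trans
      (Set.ncard_image_le (Core.finite_partitions (n + t * w)))
  let D : Set ((ℕ → ℕ) × ((Σ _ : ℕ, ℕ) × ℕ)) :=
    {f | Core.IsPartition n f ∧ Core.IsCore t f} ×ˢ (idx t w : Set ((Σ _ : ℕ, ℕ) × ℕ))
  have hD : D.ncard = Core.numCores t n * (t.choose 2 * (w - 1)) := by
    rw [Set.ncard_prod, Set.ncard_coe_finset, card_idx]
    rfl
  have hok : ∀ x ∈ (idx t w : Set ((Σ _ : ℕ, ℕ) × ℕ)), Ok t w x.1.2 x.1.1 x.2 := by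
    rintro ⟨⟨s, r⟩, a⟩ hx
    rw [mem_coe] at hx
    unfold idx at hx
    rw [mem_product, mem_sigma, mem_range, mem_range, mem_Icc] at hx
    obtain ⟨⟨h1, h2⟩, h3, h4⟩ := hx
    simp only at h1 h2 h3 h4
    exact ⟨h2, h1, h3, by simp only; omega⟩
  let F : (ℕ → ℕ) × ((Σ _ : ℕ, ℕ) × ℕ) → Finset ℕ := fun p =>
    mv t w (Core.beads N p.1) p.2.1.2 p.2.1.1 p.2.2
  have hmap : ∀ p ∈ D, F p ∈ Z := by
    rintro ⟨f, x⟩ ⟨⟨hf, hc⟩, hx⟩
    simp only at hf hc hx
    have hcl := closed_beads hf hNt hc
    have ho := hok x hx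
    refine ⟨?_, ?_⟩
    · rw [card_mv hcl ho]
      exact Core.card_beads hf.1
    · rw [sum_mv hcl ho, Core.sum_beads hf (by omega)]
      omega
  have hinj : Set.InjOn F D := by
    rintro ⟨f, x⟩ ⟨⟨hf, hc⟩, hx⟩ ⟨g, y⟩ ⟨⟨hg, hd⟩, hy⟩ e
    simp only at hf hc hx hg hd hy
    obtain ⟨h1, h2, h3, h4⟩ := mv_inj (closed_beads hf hNt hc) (hok x hx)
      (closed_beads hg hNt hd) (hok y hy) e
    have h5 := beads_inj (by omega) hf hg h1
    obtain ⟨⟨s, r⟩, a⟩ := x
    obtain ⟨⟨s', r'⟩, a'⟩ := y
    simp only at h2 h3 h4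
    rw [h5, h2, h3, h4]
  have := Set.ncard_le_ncard_of_injOn F hmap hinj hZfin
  rw [hD] at this
  exact this.trans hZcard

end count

section transfer

theorem sum_getD (L : List ℕ) : ∑ i ∈ range L.length, L.getD i 0 = L.sum := by
  induction L with
  | nil => simp
  | cons a L ih =>
    rw [List.length_cons, Finset.sum_range_succ', List.sum_cons]
    simp only [List.getD_cons_succ, List.getD_cons_zero]
    rw [ih]
    omega

theorem antitone_getD (L : List ℕ) (hL : L.Pairwise (· ≥ ·)) : Antitone fun i => L.getD i 0 := by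
  intro i j hij
  simp only
  rcases Nat.eq_or_lt_of_le hij with h | h
  · rw [h]
  · by_cases hj : j < L.length
    · rw [List.getD_eq_getElem _ _ hj, List.getD_eq_getElem _ _ (by omega)]
      exact List.pairwise_iff_getElem.mp hL i j (by omega) hj h
    · rw [List.getD_eq_default _ _ (by omega)]
      exact Nat.zero_le _

theorem row_isPartition {n : ℕ} (l : Nat.Partition n) : Core.IsPartition n (row l) := by
  refine Core.isPartition_of_sum (N := (l.parts.sort (· ≥ ·)).length)
    (antitone_getD _ (Multiset.pairwise_sort _ _)) (fun i hi => ?_) ?_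
  · unfold row
    rw [List.getD_eq_default _ _ hi]
  · unfold row
    rw [sum_getD, ← Multiset.sum_coe, Multiset.sort_eq, l.parts_sum]

theorem eq_of_getD : ∀ L M : List ℕ, (∀ x ∈ L, 0 < x) → (∀ x ∈ M, 0 < x) →
    (∀ i, L.getD i 0 = M.getD i 0) → L = M := by
  intro L
  induction L with
  | nil =>
    intro M _ hM h
    cases M with
    | nil => rfl
    | cons b M =>
      have h1 := h 0
      have h2 := hM b (by simp)
      simp at h1
      omega
  | cons a L ih =>
    intro M hL hM h
    cases M with
    | nil =>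
      have h1 := h 0
      have h2 := hL a (by simp)
      simp at h1
      omega
    | cons b M =>
      have h1 := h 0
      simp only [List.getD_cons_zero] at h1
      rw [h1, ih M (fun x hx => hL x (List.mem_cons_of_mem _ hx))
        (fun x hx => hM x (List.mem_cons_of_mem _ hx)) fun i => by
          have h2 := h (i + 1)
          simpa only [List.getD_cons_succ] using h2]

theorem row_injective {n : ℕ} : Function.Injective (row : Nat.Partition n → ℕ → ℕ) := by
  intro l m h
  have h1 : l.parts.sort (· ≥ ·) = m.parts.sort (· ≥ ·) := by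
    apply eq_of_getD
    · intro x hx
      exact l.parts_pos ((Multiset.mem_sort _).mp hx)
    · intro x hx
      exact m.parts_pos ((Multiset.mem_sort _).mp hx)
    · intro i
      exact congrFun h i
  apply Nat.Partition.ext
  rw [← Multiset.sort_eq l.parts (· ≥ ·), h1, Multiset.sort_eq]

theorem row_surj {n : ℕ} {f : ℕ → ℕ} (hf : Core.IsPartition n f) :
    ∃ l : Nat.Partition n, row l = f := by
  classical
  have hex : ∃ i, f i = 0 := ⟨n, hf.2.1 n le_rfl⟩
  obtain ⟨m, hm0, hm⟩ : ∃ m, f m = 0 ∧ ∀ i, i < m → f i ≠ 0 :=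
    ⟨Nat.find hex, Nat.find_spec hex, fun i hi => Nat.find_min hex hi⟩
  have hzero : ∀ i, m ≤ i → f i = 0 := by
    intro i hi
    have := hf.1 hi
    omega
  have hmn : m ≤ n := by
    by_contra h
    exact hm n (by omega) (hf.2.1 n le_rfl)
  let L : List ℕ := (List.range m).map f
  have hLsorted : L.Pairwise (· ≥ ·) := by
    rw [List.pairwise_map]
    refine List.Pairwise.imp ?_ List.pairwise_lt_range
    intro a b hab
    exact hf.1 hab.le
  have hLsum : L.sum = n := by
    have h1 : L.sum = ∑ i ∈ range m, f i := by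
      have hlen : L.length = m := by simp [L]
      rw [← sum_getD, hlen]
      refine sum_congr rfl fun i hi => ?_
      rw [List.getD_eq_getElem _ _ (by rw [hlen]; exact mem_range.mp hi)]
      simp [L]
    rw [h1]
    conv_rhs => rw [← hf.2.2]
    apply sum_subset (range_subset_range.mpr hmn)
    intro i _ hi
    exact hzero i (by simpa using hi)
  refine ⟨⟨(L : Multiset ℕ), ?_, ?_⟩, ?_⟩
  · intro x hx
    rw [Multiset.mem_coe, List.mem_map] at hx
    obtain ⟨i, hi, rfl⟩ := hx
    have := hm i (List.mem_range.mp hi)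
    omega
  · rw [Multiset.sum_coe, hLsum]
  · funext i
    unfold row
    have h1 : (L : Multiset ℕ).sort (· ≥ ·) = L := by
      rw [Multiset.coe_sort]
      exact List.mergeSort_eq_self _ hLsorted
    simp only
    rw [h1]
    by_cases hi : i < m
    · rw [List.getD_eq_getElem _ _ (by simpa [L] using hi)]
      simp [L]
    · rw [List.getD_eq_default _ _ (by simpa [L] using hi), hzero i (by omega)]

theorem hook_eq {n : ℕ} (l : Nat.Partition n) (i j : ℕ) :
    hook l i j = Core.hook (row l) i (j + 1) := by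
  classical
  unfold hook Core.hook
  congr 1
  rw [← Set.ncard_coe_finset]
  congr 1
  ext s
  rw [mem_coe, mem_filter, mem_range]
  change _ ↔ i ≤ s ∧ j + 1 ≤ row l s
  constructor
  · rintro ⟨_, h1, h2⟩
    exact ⟨h1, h2⟩
  · rintro ⟨h1, h2⟩
    refine ⟨?_, h1, h2⟩
    by_contra h
    have := (row_isPartition l).2.1 s (by omega)
    omega

theorem isCore_iff {n : ℕ} (t : ℕ) (l : Nat.Partition n) : IsCore t l ↔ Core.IsCore t (row l) := by
  constructor
  · intro h i j h1 h2
    obtain ⟨k, rfl⟩ : ∃ k, j = k + 1 := ⟨j - 1, by omega⟩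
    rw [← hook_eq]
    exact h i k (by omega)
  · intro h i j h1
    rw [hook_eq]
    exact h i (j + 1) (by omega) (by omega)

theorem pp_eq (n : ℕ) : pp n = Core.numPartitions n := by
  unfold pp Core.numPartitions
  have h1 : Set.range (row : Nat.Partition n → ℕ → ℕ) = {f : ℕ → ℕ | Core.IsPartition n f} := by
    ext f
    constructor
    · rintro ⟨l, rfl⟩
      exact row_isPartition l
    · intro hf
      exact row_surj hf
  rw [← h1, ← Set.image_univ, Set.ncard_image_of_injective _ row_injective, Set.ncard_univ,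
    Nat.card_eq_fintype_card]

theorem cores_eq (t n : ℕ) : cores t n = Core.numCores t n := by
  unfold cores Core.numCores
  have h1 : (row : Nat.Partition n → ℕ → ℕ) '' {l | IsCore t l} =
      {f : ℕ → ℕ | Core.IsPartition n f ∧ Core.IsCore t f} := by
    ext f
    constructor
    · rintro ⟨l, hl, rfl⟩
      exact ⟨row_isPartition l, (isCore_iff t l).mp hl⟩
    · rintro ⟨hf, hc⟩
      obtain ⟨l, rfl⟩ := row_surj hf
      exact ⟨l, (isCore_iff t l).mpr hc, rfl⟩
  rw [← h1, Set.ncard_image_of_injective _ row_injective]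
  rfl

end transfer

/-- Task C. -/
theorem core : S_CORE := by
  intro t w n _ _
  rw [pp_eq, cores_eq]
  exact cores_mul_le t w n

theorem row_zero_pos {n : ℕ} (hn : 1 ≤ n) (l : Nat.Partition n) : 0 < row l 0 := by
  rcases Nat.eq_zero_or_pos (row l 0) with h | h
  · exfalso
    have h1 := (row_isPartition l).2.2
    have h2 : ∑ i ∈ range n, row l i = 0 := by
      apply sum_eq_zero
      intro i _
      have := (row_isPartition l).1 (Nat.zero_le i)
      omega
    omega
  · exact h

/-- Task C'. -/
theorem core1 : S_CORE1 := by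
  intro n hn
  unfold cores
  rw [Nat.card_eq_zero]
  left
  constructor
  rintro ⟨l, hl⟩
  exact hl 0 0 (row_zero_pos hn l) (one_dvd _)

end Pool.Agent.W5h11.PZ
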