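import Mathlib

/-!
# Type I and type II zeros of the character table of the symmetric group: definitions and tasks
-/

set_option autoImplicit false

namespace Pool.Agent.W5h11.PZ

open Finset

/-- `p n`: the number of partitions of `n`. -/
def pp (n : ℕ) : ℕ := Fintype.card (Nat.Partition n)

/-- The `i`-th largest part (`i = 0, 1, …`); it is `0` if there are at most `i` parts. -/
noncomputable def row {n : ℕ} (l : Nat.Partition n) (i : ℕ) : ℕ := (l.parts.sort (· ≥ ·)).getD i 0

/-- The hook length of the cell in row `i` and column `j` (`i, j = 0, 1, …` and `j < row l i`):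
the number of the cells of the row after the column `j`, and the number of the rows `s ≥ i` which
are longer than `j`. -/
noncomputable def hook {n : ℕ} (l : Nat.Partition n) (i j : ℕ) : ℕ :=
  row l i - (j + 1) + ((range n).filter fun s => i ≤ s ∧ j < row l s).card

/-- `l` is a `t`-core: no hook length is divisible by `t`. -/
def IsCore (t : ℕ) {n : ℕ} (l : Nat.Partition n) : Prop := ∀ i j, j < row l i → ¬ t ∣ hook l i j

/-- The number of the `t`-cores of size `n`. -/
noncomputable def cores (t n : ℕ) : ℕ := Nat.card {l : Nat.Partition n // IsCore t l}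

/-- The pairs `(λ, μ)` such that `λ` is a `t`-core for the largest part `t` of `μ`. -/
noncomputable def zI (n : ℕ) : ℝ :=
  (Nat.card {x : Nat.Partition n × Nat.Partition n // IsCore (row x.2 0) x.1} : ℝ) / (pp n : ℝ) ^ 2

/-- The pairs `(λ, μ)` such that `λ` is a `t`-core for some part `t` of `μ`. -/
noncomputable def zII (n : ℕ) : ℝ :=
  (Nat.card {x : Nat.Partition n × Nat.Partition n // ∃ t ∈ x.2.parts, IsCore t x.1} : ℝ) /
    (pp n : ℝ) ^ 2

/-- Task C: many partitions of `n + t w` from the `t`-cores of size `n`. -/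
def S_CORE : Prop := ∀ t w n : ℕ, 2 ≤ t → 2 ≤ w → cores t n * (t.choose 2 * (w - 1)) ≤ pp (n + t * w)

/-- Task C': there are no nonempty `1`-cores. -/
def S_CORE1 : Prop := ∀ n : ℕ, 1 ≤ n → cores 1 n = 0

/-- Task R: the recursion `n p(n) = ∑ d p(n - m d)`. -/
def S_REC : Prop := ∀ n : ℕ, n * pp n =
  ∑ x ∈ (Icc 1 n ×ˢ Icc 1 n).filter (fun x => x.1 * x.2 ≤ n), x.2 * pp (n - x.1 * x.2)

/-- Task A: the growth of `p` near `n` is exponential up to constants. -/
def S_GROWTH : Prop := ∃ (α : ℕ → ℝ) (C a₁ a₂ : ℝ), 1 ≤ C ∧ 0 < a₁ ∧ 0 < a₂ ∧ ∀ n : ℕ, 1 ≤ n →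
  a₁ / √(n : ℝ) ≤ α n ∧ α n ≤ a₂ / √(n : ℝ) ∧
  (∀ t : ℕ, 2 * t ≤ n → (pp (n - t) : ℝ) ≤ C * Real.exp (-(t * α n)) * pp n) ∧
  ∀ s : ℕ, (pp (n + s) : ℝ) ≤ C * Real.exp (s * α n) * pp n

/-- Task D: the final estimate. -/
def S_FINAL : Prop := ∃ C : ℝ, ∀ n : ℕ, 2 ≤ n → zII n ≤ C / Real.log n

end Pool.Agent.W5h11.PZ
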