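import Mathlib
import Pool.Agent.W5h11.PZ.Defs

/-!
# Task D: the final estimate
-/

set_option autoImplicit false

namespace Pool.Agent.W5h11.PZ

open Finset

/-- A sum of distinct powers of `exp (-a)`. -/
theorem geo_le {a : ℝ} (ha : 0 < a) (s : Finset ℕ) :
    ∑ j ∈ s, Real.exp (-(j * a)) ≤ (1 + a) / a := by
  have h1 : ∀ j : ℕ, Real.exp (-(j * a)) = (Real.exp (-a)) ^ j := by
    intro j
    rw [← Real.exp_nat_mul]
    congr 1
    ring
  have hlt : Real.exp (-a) < 1 := by
    rw [Real.exp_lt_one_iff]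
    linarith
  have hsum : Summable (fun j : ℕ => (Real.exp (-a)) ^ j) :=
    summable_geometric_of_lt_one (Real.exp_nonneg _) hlt
  calc ∑ j ∈ s, Real.exp (-(j * a)) = ∑ j ∈ s, (Real.exp (-a)) ^ j := by
        exact sum_congr rfl fun j _ => h1 j
    _ ≤ ∑' j : ℕ, (Real.exp (-a)) ^ j :=
        hsum.sum_le_tsum s fun j _ => by positivity
    _ = (1 - Real.exp (-a))⁻¹ := tsum_geometric_of_lt_one (Real.exp_nonneg _) hlt
    _ ≤ (1 + a) / a := by
        have h2 : Real.exp (-a) ≤ 1 / (1 + a) := by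
          rw [Real.exp_neg, ← one_div]
          apply one_div_le_one_div_of_le (by linarith)
          linarith [Real.add_one_le_exp a]
        have h3 : a / (1 + a) ≤ 1 - Real.exp (-a) := by
          have : a / (1 + a) = 1 - 1 / (1 + a) := by
            field_simp
            ring
          rw [this]
          linarith
        have h4 : (1 + a) / a = (a / (1 + a))⁻¹ := by
          rw [inv_div]
        rw [h4]
        apply inv_anti₀ (by positivity) h3

/-- The sum of `exp (-|t a - v|)`. -/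
theorem tent_le {a : ℝ} (ha : 0 < a) (v : ℝ) (s : Finset ℕ) :
    ∑ t ∈ s, Real.exp (-|t * a - v|) ≤ 2 * ((1 + a) / a) := by
  set K : ℤ := ⌊v / a⌋ with hK
  have hK1 : (K : ℝ) * a ≤ v := by
    have := Int.floor_le (v / a)
    rwa [← hK, le_div_iff₀ ha] at this
  have hK2 : v < ((K : ℝ) + 1) * a := by
    have := Int.lt_floor_add_one (v / a)
    rwa [← hK, div_lt_iff₀ ha] at this
  rw [← sum_filter_add_sum_filter_not s (fun t : ℕ => (t : ℤ) ≤ K)]
  have h1 : ∑ t ∈ s.filter (fun t : ℕ => (t : ℤ) ≤ K), Real.exp (-|t * a - v|) ≤ (1 + a) / a := by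
    calc ∑ t ∈ s.filter (fun t : ℕ => (t : ℤ) ≤ K), Real.exp (-|t * a - v|)
        ≤ ∑ t ∈ s.filter (fun t : ℕ => (t : ℤ) ≤ K),
            Real.exp (-(((K - (t : ℤ)).toNat : ℕ) * a)) := by
          apply sum_le_sum
          intro t ht
          rw [mem_filter] at ht
          apply Real.exp_le_exp.mpr
          have h5 : (((K - (t : ℤ)).toNat : ℕ) : ℝ) = (K : ℝ) - t := by
            have : (((K - (t : ℤ)).toNat : ℕ) : ℤ) = K - t := Int.toNat_of_nonneg (by omega)
            have h6 : ((((K - (t : ℤ)).toNat : ℕ) : ℤ) : ℝ) = ((K - t : ℤ) : ℝ) := by rw [this]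
            push_cast at h6
            exact_mod_cast h6
          rw [h5, neg_le_neg_iff]
          have h7 : -(t * a - v) ≤ |t * a - v| := neg_le_abs _
          nlinarith
      _ = ∑ j ∈ (s.filter (fun t : ℕ => (t : ℤ) ≤ K)).image (fun t : ℕ => (K - (t : ℤ)).toNat),
            Real.exp (-((j : ℝ) * a)) := by
          rw [sum_image]
          intro x hx y hy hxy
          simp only [coe_filter, Set.mem_ofPred_eq] at hx hy
          simp only at hxy
          omega
      _ ≤ (1 + a) / a := geo_le ha _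
  have h2 : ∑ t ∈ s.filter (fun t : ℕ => ¬ (t : ℤ) ≤ K), Real.exp (-|t * a - v|) ≤ (1 + a) / a := by
    calc ∑ t ∈ s.filter (fun t : ℕ => ¬ (t : ℤ) ≤ K), Real.exp (-|t * a - v|)
        ≤ ∑ t ∈ s.filter (fun t : ℕ => ¬ (t : ℤ) ≤ K),
            Real.exp (-((((t : ℤ) - K - 1).toNat : ℕ) * a)) := by
          apply sum_le_sum
          intro t ht
          rw [mem_filter] at ht
          apply Real.exp_le_exp.mpr
          have h5 : ((((t : ℤ) - K - 1).toNat : ℕ) : ℝ) = (t : ℝ) - K - 1 := by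
            have : ((((t : ℤ) - K - 1).toNat : ℕ) : ℤ) = (t : ℤ) - K - 1 :=
              Int.toNat_of_nonneg (by omega)
            have h6 : (((((t : ℤ) - K - 1).toNat : ℕ) : ℤ) : ℝ) = (((t : ℤ) - K - 1 : ℤ) : ℝ) := by
              rw [this]
            push_cast at h6
            exact_mod_cast h6
          rw [h5, neg_le_neg_iff]
          have h7 : t * a - v ≤ |t * a - v| := le_abs_self _
          nlinarith
      _ = ∑ j ∈ (s.filter (fun t : ℕ => ¬ (t : ℤ) ≤ K)).image
            (fun t : ℕ => ((t : ℤ) - K - 1).toNat), Real.exp (-((j : ℝ) * a)) := by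
          rw [sum_image]
          intro x hx y hy hxy
          simp only [coe_filter, Set.mem_ofPred_eq] at hx hy
          simp only at hxy
          omega
      _ ≤ (1 + a) / a := geo_le ha _
  linarith

/-- The harmonic sum. -/
theorem sum_inv_le (n : ℕ) : ∑ t ∈ Icc 1 n, (1 : ℝ) / t ≤ 1 + Real.log n := by
  have h := harmonic_le_one_add_log n
  rw [harmonic_eq_sum_Icc] at h
  push_cast at h
  simpa [one_div] using h

/-- The union bound. -/
theorem zII_le (hpart : ∀ n t : ℕ, 1 ≤ t → t ≤ n →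
    Nat.card {l : Nat.Partition n // t ∈ l.parts} = pp (n - t)) (n : ℕ) :
    zII n ≤ ∑ t ∈ Icc 1 n, (cores t n : ℝ) * pp (n - t) / (pp n : ℝ) ^ 2 := by
  classical
  have hP : (0 : ℝ) < (pp n : ℝ) ^ 2 := by
    have : 0 < pp n := Fintype.card_pos
    positivity
  unfold zII
  rw [← sum_div]
  apply div_le_div_of_nonneg_right _ hP.le
  have h1 : Nat.card {x : Nat.Partition n × Nat.Partition n // ∃ t ∈ x.2.parts, IsCore t x.1} ≤
      ∑ t ∈ Icc 1 n, cores t n * pp (n - t) := by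
    rw [Nat.card_eq_fintype_card, Fintype.card_subtype]
    have h2 : (univ.filter fun x : Nat.Partition n × Nat.Partition n =>
        ∃ t ∈ x.2.parts, IsCore t x.1) ⊆ (Icc 1 n).biUnion fun t =>
        univ.filter fun x : Nat.Partition n × Nat.Partition n =>
          IsCore t x.1 ∧ t ∈ x.2.parts := by
      intro x hx
      rw [mem_filter] at hx
      obtain ⟨-, t, ht, hc⟩ := hx
      rw [mem_biUnion]
      refine ⟨t, ?_, ?_⟩
      · rw [mem_Icc]
        refine ⟨x.2.parts_pos ht, ?_⟩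
        have := x.2.parts_sum
        calc t ≤ x.2.parts.sum := Multiset.single_le_sum (by simp) _ ht
          _ = n := this
      · rw [mem_filter]
        exact ⟨mem_univ _, hc, ht⟩
    refine (card_le_card h2).trans (card_biUnion_le.trans ?_)
    apply sum_le_sum
    intro t ht
    rw [mem_Icc] at ht
    have h3 : (univ.filter fun x : Nat.Partition n × Nat.Partition n =>
          IsCore t x.1 ∧ t ∈ x.2.parts) =
        (univ.filter fun l : Nat.Partition n => IsCore t l) ×ˢ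
          (univ.filter fun l : Nat.Partition n => t ∈ l.parts) := by
      ext x
      simp
    rw [h3, card_product]
    apply le_of_eq
    congr 1
    · unfold cores
      rw [Nat.card_eq_fintype_card, Fintype.card_subtype]
    · rw [← hpart n t ht.1 ht.2, Nat.card_eq_fintype_card, Fintype.card_subtype]
  calc (Nat.card {x : Nat.Partition n × Nat.Partition n // ∃ t ∈ x.2.parts, IsCore t x.1} : ℝ)
      ≤ ((∑ t ∈ Icc 1 n, cores t n * pp (n - t) : ℕ) : ℝ) := by exact_mod_cast h1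
    _ = ∑ t ∈ Icc 1 n, (cores t n : ℝ) * pp (n - t) := by push_cast; rfl

theorem cores_le (t n : ℕ) : cores t n ≤ pp n := by
  classical
  unfold cores pp
  rw [Nat.card_eq_fintype_card]
  exact Fintype.card_subtype_le _

theorem pp_pos' (n : ℕ) : (0 : ℝ) < pp n := by
  have : 0 < pp n := Fintype.card_pos
  exact_mod_cast this

/-- The number of the cores is at most `4 C exp (w u) / (t ^ 2 (w - 1))` times `p n`. -/
theorem cores_bound (hC : S_CORE) {C a : ℝ} {n : ℕ}
    (hs : ∀ s : ℕ, (pp (n + s) : ℝ) ≤ C * Real.exp (s * a) * pp n) {t w : ℕ} (ht : 2 ≤ t)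
    (hw : 2 ≤ w) :
    (cores t n : ℝ) / pp n ≤ 4 * C * Real.exp (w * (t * a)) / ((t : ℝ) ^ 2 * ((w : ℝ) - 1)) := by
  have hP := pp_pos' n
  have ht' : (2 : ℝ) ≤ t := by exact_mod_cast ht
  have hw' : (2 : ℝ) ≤ w := by exact_mod_cast hw
  have h1 : (cores t n : ℝ) * (((t : ℝ) * (t - 1) / 2) * ((w : ℝ) - 1)) ≤
      C * Real.exp (w * (t * a)) * pp n := by
    have h2 := hC t w n ht hw
    have h3 : ((cores t n * (t.choose 2 * (w - 1)) : ℕ) : ℝ) ≤ (pp (n + t * w) : ℝ) := by
      exact_mod_cast h2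
    rw [Nat.cast_mul, Nat.cast_mul, Nat.cast_choose_two, Nat.cast_sub (by omega)] at h3
    push_cast at h3
    refine h3.trans ((hs (t * w)).trans (le_of_eq ?_))
    congr 3
    push_cast
    ring
  have h4 : (t : ℝ) ^ 2 / 4 ≤ (t : ℝ) * (t - 1) / 2 := by nlinarith
  have hc0 : (0 : ℝ) ≤ cores t n := Nat.cast_nonneg _
  have h5 : (cores t n : ℝ) * ((t : ℝ) ^ 2 / 4 * ((w : ℝ) - 1)) ≤
      C * Real.exp (w * (t * a)) * pp n := by
    refine le_trans ?_ h1
    apply mul_le_mul_of_nonneg_left _ hc0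
    apply mul_le_mul_of_nonneg_right h4
    linarith
  have h6 : (0 : ℝ) < (t : ℝ) ^ 2 * ((w : ℝ) - 1) := by
    have : (0 : ℝ) < (w : ℝ) - 1 := by linarith
    positivity
  rw [div_le_div_iff₀ hP h6]
  nlinarith

/-- The bound for one term with `2 t ≤ n`. -/
theorem term_bound (hC : S_CORE) {C a : ℝ} {n : ℕ} (hC1 : 1 ≤ C) (ha : 0 < a) (hn : 2 ≤ n)
    (hs : ∀ s : ℕ, (pp (n + s) : ℝ) ≤ C * Real.exp (s * a) * pp n) {t : ℕ} (ht : 2 ≤ t)
    (hd : (pp (n - t) : ℝ) ≤ C * Real.exp (-(t * a)) * pp n) :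
    (cores t n : ℝ) * pp (n - t) / (pp n : ℝ) ^ 2 ≤
      16 * C ^ 2 * Real.exp 1 * (n : ℝ) ^ (1 / 4 : ℝ) * a * (1 / t) +
      4 * C ^ 2 * (4 * a / Real.log n) *
        Real.exp (-|t * a - (-Real.log (4 * a / Real.log n))|) := by
  have hP := pp_pos' n
  have ht' : (2 : ℝ) ≤ t := by exact_mod_cast ht
  have hn' : (2 : ℝ) ≤ n := by exact_mod_cast hn
  have hlog : 0 < Real.log n := Real.log_pos (by linarith)
  set u : ℝ := t * a with hu
  have hu0 : 0 < u := by positivity
  have hn4 : (1 : ℝ) ≤ (n : ℝ) ^ (1 / 4 : ℝ) :=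
    Real.one_le_rpow (by linarith) (by norm_num)
  have he1 : (1 : ℝ) ≤ Real.exp 1 := by
    have := Real.add_one_le_exp (1 : ℝ)
    linarith
  have hT1 : (0 : ℝ) ≤ 16 * C ^ 2 * Real.exp 1 * (n : ℝ) ^ (1 / 4 : ℝ) * a * (1 / t) := by
    positivity
  have hT2 : (0 : ℝ) ≤ 4 * C ^ 2 * (4 * a / Real.log n) *
        Real.exp (-|u - (-Real.log (4 * a / Real.log n))|) := by
    positivity
  -- the product
  have hfac : (cores t n : ℝ) * pp (n - t) / (pp n : ℝ) ^ 2 =
      ((cores t n : ℝ) / pp n) * ((pp (n - t) : ℝ) / pp n) := by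
    field_simp
  have hd' : (pp (n - t) : ℝ) / pp n ≤ C * Real.exp (-u) := by
    rw [div_le_iff₀ hP]
    exact hd
  have hd0 : (0 : ℝ) ≤ (pp (n - t) : ℝ) / pp n := by positivity
  have hc0 : (0 : ℝ) ≤ (cores t n : ℝ) / pp n := by positivity
  have hc1 : (cores t n : ℝ) / pp n ≤ 1 := by
    rw [div_le_one hP]
    exact_mod_cast cores_le t n
  rw [hfac]
  by_cases hA : u ≤ 1 / 2
  · -- case A
    refine le_trans ?_ (le_add_of_nonneg_right hT2)
    set w : ℕ := ⌊1 / u⌋₊ with hw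
    have h2u : 2 ≤ 1 / u := by
      rw [le_div_iff₀ hu0]
      linarith
    have hw2 : 2 ≤ w := by
      rw [hw]
      apply Nat.le_floor
      exact_mod_cast h2u
    have hwu : (w : ℝ) * u ≤ 1 := by
      have := Nat.floor_le (show (0 : ℝ) ≤ 1 / u by positivity)
      rwa [← hw, le_div_iff₀ hu0] at this
    have hw1 : 1 / u < (w : ℝ) + 1 := Nat.lt_floor_add_one _
    have hw2' : (2 : ℝ) ≤ w := by exact_mod_cast hw2
    have hw4 : 1 / (4 * u) ≤ (w : ℝ) - 1 := by
      have : 1 / (4 * u) = (1 / u) / 4 := by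
        field_simp
      rw [this]
      linarith
    have h1 := cores_bound hC hs ht hw2
    have h2 : 4 * C * Real.exp (w * u) / ((t : ℝ) ^ 2 * ((w : ℝ) - 1)) ≤
        4 * C * Real.exp 1 / ((t : ℝ) ^ 2 * (1 / (4 * u))) := by
      apply div_le_div₀ (by positivity)
      · apply mul_le_mul_of_nonneg_left _ (by positivity)
        exact Real.exp_le_exp.mpr hwu
      · positivity
      · apply mul_le_mul_of_nonneg_left hw4 (by positivity)
    have h3 : 4 * C * Real.exp 1 / ((t : ℝ) ^ 2 * (1 / (4 * u))) =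
        16 * C * Real.exp 1 * a * (1 / t) := by
      rw [hu]
      field_simp
      ring
    have h4 : (cores t n : ℝ) / pp n ≤ 16 * C * Real.exp 1 * a * (1 / t) :=
      (h1.trans h2).trans (le_of_eq h3)
    have h5 : (pp (n - t) : ℝ) / pp n ≤ C := by
      refine hd'.trans ?_
      have : Real.exp (-u) ≤ 1 := by
        rw [Real.exp_le_one_iff]
        linarith
      nlinarith
    calc ((cores t n : ℝ) / pp n) * ((pp (n - t) : ℝ) / pp n)
        ≤ (16 * C * Real.exp 1 * a * (1 / t)) * C :=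
          mul_le_mul h4 h5 hd0 (by positivity)
      _ = 16 * C ^ 2 * Real.exp 1 * 1 * a * (1 / t) := by ring
      _ ≤ _ := by
          gcongr
  · push Not at hA
    have h1 := cores_bound hC hs ht (le_refl 2)
    have h1' : (cores t n : ℝ) / pp n ≤ 4 * C * Real.exp (2 * u) / (t : ℝ) ^ 2 := by
      refine h1.trans (le_of_eq ?_)
      norm_num [hu]
    have h2 : ((cores t n : ℝ) / pp n) * ((pp (n - t) : ℝ) / pp n) ≤
        4 * C ^ 2 * Real.exp u / (t : ℝ) ^ 2 := by
      calc ((cores t n : ℝ) / pp n) * ((pp (n - t) : ℝ) / pp n)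
          ≤ (4 * C * Real.exp (2 * u) / (t : ℝ) ^ 2) * (C * Real.exp (-u)) :=
            mul_le_mul h1' hd' hd0 (by positivity)
        _ = 4 * C ^ 2 * (Real.exp (2 * u) * Real.exp (-u)) / (t : ℝ) ^ 2 := by ring
        _ = 4 * C ^ 2 * Real.exp u / (t : ℝ) ^ 2 := by
            rw [← Real.exp_add]
            congr 3
            ring
    by_cases hB : u ≤ Real.log n / 4
    · refine le_trans ?_ (le_add_of_nonneg_right hT2)
      have h3 : Real.exp u ≤ (n : ℝ) ^ (1 / 4 : ℝ) := by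
        rw [Real.rpow_def_of_pos (by linarith)]
        apply Real.exp_le_exp.mpr
        linarith
      have h4 : 1 / (t : ℝ) ≤ 2 * a := by
        rw [div_le_iff₀ (by linarith)]
        nlinarith
      calc ((cores t n : ℝ) / pp n) * ((pp (n - t) : ℝ) / pp n)
          ≤ 4 * C ^ 2 * Real.exp u / (t : ℝ) ^ 2 := h2
        _ = 4 * C ^ 2 * 1 * Real.exp u * (1 / t) * (1 / t) := by
            field_simp
        _ ≤ 4 * C ^ 2 * Real.exp 1 * (n : ℝ) ^ (1 / 4 : ℝ) * (2 * a) * (1 / t) := by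
            gcongr
        _ ≤ 16 * C ^ 2 * Real.exp 1 * (n : ℝ) ^ (1 / 4 : ℝ) * a * (1 / t) := by
            have : (0 : ℝ) ≤ C ^ 2 * Real.exp 1 * (n : ℝ) ^ (1 / 4 : ℝ) * a * (1 / t) := by
              positivity
            nlinarith
    · push Not at hB
      refine le_trans ?_ (le_add_of_nonneg_left hT1)
      set y : ℝ := 4 * a / Real.log n with hy
      have hy0 : 0 < y := by positivity
      have h3 : 1 / (t : ℝ) ≤ y := by
        rw [hy, div_le_div_iff₀ (by linarith) hlog]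
        have : Real.log n < 4 * (t * a) := by
          have := hB
          rw [hu] at this
          linarith
        linarith
      have h4 : ((cores t n : ℝ) / pp n) * ((pp (n - t) : ℝ) / pp n) ≤
          4 * C ^ 2 * (y ^ 2 * Real.exp u) := by
        calc ((cores t n : ℝ) / pp n) * ((pp (n - t) : ℝ) / pp n)
            ≤ 4 * C ^ 2 * Real.exp u / (t : ℝ) ^ 2 := h2
          _ = 4 * C ^ 2 * ((1 / t) ^ 2 * Real.exp u) := by
              field_simp
          _ ≤ 4 * C ^ 2 * (y ^ 2 * Real.exp u) := by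
              gcongr
      have h5 : ((cores t n : ℝ) / pp n) * ((pp (n - t) : ℝ) / pp n) ≤
          4 * C ^ 2 * Real.exp (-u) := by
        calc ((cores t n : ℝ) / pp n) * ((pp (n - t) : ℝ) / pp n)
            ≤ 1 * (C * Real.exp (-u)) := mul_le_mul hc1 hd' hd0 zero_le_one
          _ ≤ 4 * C ^ 2 * Real.exp (-u) := by
              have := Real.exp_pos (-u)
              have h6 : C ≤ 4 * C ^ 2 := by nlinarith
              nlinarith
      have h6 : y ^ 2 * Real.exp u = y * Real.exp (u - (-Real.log y)) := by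
        have : Real.exp (u - (-Real.log y)) = Real.exp u * y := by
          rw [sub_neg_eq_add, Real.exp_add, Real.exp_log hy0]
        rw [this]
        ring
      have h7 : Real.exp (-u) = y * Real.exp (-(u - (-Real.log y))) := by
        have : Real.exp (-(u - (-Real.log y))) = Real.exp (-u) / y := by
          rw [show -(u - (-Real.log y)) = -u - Real.log y by ring, Real.exp_sub,
            Real.exp_log hy0]
        rw [this]
        field_simp
      rcases le_total 0 (u - (-Real.log y)) with h | h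
      · rw [abs_of_nonneg h]
        refine h5.trans (le_of_eq ?_)
        rw [h7]
        ring
      · rw [abs_of_nonpos h, neg_neg]
        refine h4.trans (le_of_eq ?_)
        rw [h6]
        ring

/-- **Task D**: the final estimate. -/
theorem final (hC : S_CORE) (h1 : S_CORE1) (hG : S_GROWTH) (hmono : Monotone pp)
    (hpart : ∀ n t : ℕ, 1 ≤ t → t ≤ n →
      Nat.card {l : Nat.Partition n // t ∈ l.parts} = pp (n - t)) : S_FINAL := by
  obtain ⟨α, C, a₁, a₂, hC1, ha₁, ha₂, H⟩ := hG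
  refine ⟨6144 * C / a₁ ^ 4 + 16 * C ^ 2 * Real.exp 1 * a₂ * 72 + 32 * C ^ 2 * (1 + a₂), ?_⟩
  intro n hn
  obtain ⟨hα1, hα2, hdown, hup⟩ := H n (by omega)
  set a : ℝ := α n with hadef
  have hP := pp_pos' n
  have hn' : (2 : ℝ) ≤ n := by exact_mod_cast hn
  have hsq : (0 : ℝ) < √(n : ℝ) := Real.sqrt_pos.mpr (by linarith)
  have hsq1 : (1 : ℝ) ≤ √(n : ℝ) := Real.one_le_sqrt.mpr (by linarith)
  have ha : 0 < a := lt_of_lt_of_le (by positivity) hα1
  have haa₂ : a ≤ a₂ := hα2.trans (div_le_self ha₂.le hsq1)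
  have hlog : 0 < Real.log n := Real.log_pos (by linarith)
  have he1 : (0 : ℝ) < Real.exp 1 := Real.exp_pos 1
  have hn4 : (0 : ℝ) < (n : ℝ) ^ (1 / 4 : ℝ) := Real.rpow_pos_of_pos (by linarith) _
  -- the bound for every term
  have hterm : ∀ t ∈ Icc 1 n, (cores t n : ℝ) * pp (n - t) / (pp n : ℝ) ^ 2 ≤
      C * Real.exp (-(a₁ / 4 * √(n : ℝ))) +
      (16 * C ^ 2 * Real.exp 1 * (n : ℝ) ^ (1 / 4 : ℝ) * a * (1 / t) +
      4 * C ^ 2 * (4 * a / Real.log n) *
        Real.exp (-|t * a - (-Real.log (4 * a / Real.log n))|)) := by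
    intro t ht
    rw [mem_Icc] at ht
    have hX : (0 : ℝ) ≤ C * Real.exp (-(a₁ / 4 * √(n : ℝ))) := by positivity
    have hY : (0 : ℝ) ≤ 16 * C ^ 2 * Real.exp 1 * (n : ℝ) ^ (1 / 4 : ℝ) * a * (1 / t) +
      4 * C ^ 2 * (4 * a / Real.log n) *
        Real.exp (-|t * a - (-Real.log (4 * a / Real.log n))|) := by
      positivity
    rcases eq_or_lt_of_le ht.1 with h | h
    · rw [← h, h1 n (by omega)]
      rw [← h] at hY
      simp only [Nat.cast_zero, zero_mul, zero_div]
      linarith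
    · by_cases h2 : 2 * t ≤ n
      · refine le_trans ?_ (le_add_of_nonneg_left hX)
        exact term_bound hC hC1 ha hn hup (by omega) (hdown t h2)
      · refine le_trans ?_ (le_add_of_nonneg_right hY)
        have h3 : (pp (n - t) : ℝ) ≤ pp (n - n / 2) := by
          exact_mod_cast hmono (by omega)
        have h4 := hdown (n / 2) (by omega)
        have h5 : Real.exp (-(((n / 2 : ℕ) : ℝ) * a)) ≤ Real.exp (-(a₁ / 4 * √(n : ℝ))) := by
          apply Real.exp_le_exp.mpr
          rw [neg_le_neg_iff]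
          have h6 : (n : ℝ) / 4 ≤ ((n / 2 : ℕ) : ℝ) := by
            have : n ≤ 4 * (n / 2) := by omega
            have h7 : (n : ℝ) ≤ 4 * ((n / 2 : ℕ) : ℝ) := by exact_mod_cast this
            linarith
          calc a₁ / 4 * √(n : ℝ) = (n : ℝ) / 4 * (a₁ / √(n : ℝ)) := by
                have h8 : (n : ℝ) = √(n : ℝ) * √(n : ℝ) :=
                  (Real.mul_self_sqrt (by linarith)).symm
                rw [show (n : ℝ) / 4 * (a₁ / √(n : ℝ)) = a₁ / 4 * ((n : ℝ) / √(n : ℝ)) by ring]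
                congr 1
                rw [eq_div_iff hsq.ne']
                exact h8.symm
            _ ≤ ((n / 2 : ℕ) : ℝ) * a := by
                apply mul_le_mul h6 hα1 (by positivity) (Nat.cast_nonneg _)
        have h6 : (pp (n - t) : ℝ) ≤ C * Real.exp (-(a₁ / 4 * √(n : ℝ))) * pp n := by
          refine (h3.trans h4).trans ?_
          gcongr
        have h7 : (cores t n : ℝ) ≤ pp n := by exact_mod_cast cores_le t n
        rw [div_le_iff₀ (by positivity)]
        calc (cores t n : ℝ) * pp (n - t)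
            ≤ pp n * (C * Real.exp (-(a₁ / 4 * √(n : ℝ))) * pp n) :=
              mul_le_mul h7 h6 (Nat.cast_nonneg _) (Nat.cast_nonneg _)
          _ = C * Real.exp (-(a₁ / 4 * √(n : ℝ))) * (pp n : ℝ) ^ 2 := by ring
  -- the three sums
  have hS1 : (n : ℝ) * (C * Real.exp (-(a₁ / 4 * √(n : ℝ)))) ≤
      6144 * C / a₁ ^ 4 / Real.log n := by
    have hx : 0 < a₁ / 4 * √(n : ℝ) := by positivity
    have h2 := Real.pow_div_factorial_le_exp (a₁ / 4 * √(n : ℝ)) hx.le 4
    have h3 : (a₁ / 4 * √(n : ℝ)) ^ 4 = a₁ ^ 4 / 256 * (n : ℝ) ^ 2 := by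
      have h4 : √(n : ℝ) ^ 4 = (n : ℝ) ^ 2 := by
        rw [show (4 : ℕ) = 2 * 2 by norm_num, pow_mul, Real.sq_sqrt (by linarith)]
      rw [mul_pow, h4, div_pow]
      norm_num
    rw [h3] at h2
    have h4 : Real.exp (-(a₁ / 4 * √(n : ℝ))) ≤ 6144 / (a₁ ^ 4 * (n : ℝ) ^ 2) := by
      rw [Real.exp_neg, inv_eq_one_div, div_le_div_iff₀ (Real.exp_pos _) (by positivity)]
      have h5 : ((4 : ℕ).factorial : ℝ) = 24 := by norm_num [Nat.factorial]
      rw [h5] at h2
      have h6 : a₁ ^ 4 * (n : ℝ) ^ 2 = 6144 * (a₁ ^ 4 / 256 * (n : ℝ) ^ 2 / 24) := by ring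
      rw [one_mul, h6]
      exact mul_le_mul_of_nonneg_left h2 (by norm_num)
    have h5 : Real.log n ≤ n := (Real.log_le_sub_one_of_pos (by linarith)).trans (by linarith)
    calc (n : ℝ) * (C * Real.exp (-(a₁ / 4 * √(n : ℝ))))
        ≤ (n : ℝ) * (C * (6144 / (a₁ ^ 4 * (n : ℝ) ^ 2))) := by gcongr
      _ = 6144 * C / a₁ ^ 4 / n := by field_simp
      _ ≤ 6144 * C / a₁ ^ 4 / Real.log n := by
          apply div_le_div_of_nonneg_left (by positivity) hlog h5
  have hS2 : 16 * C ^ 2 * Real.exp 1 * (n : ℝ) ^ (1 / 4 : ℝ) * a * (1 + Real.log n) ≤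
      16 * C ^ 2 * Real.exp 1 * a₂ * 72 / Real.log n := by
    have hn8 : (1 : ℝ) ≤ (n : ℝ) ^ (1 / 8 : ℝ) := Real.one_le_rpow (by linarith) (by norm_num)
    have h2 : Real.log n ≤ 8 * (n : ℝ) ^ (1 / 8 : ℝ) := by
      have := Real.log_le_rpow_div (x := (n : ℝ)) (by linarith) (ε := 1 / 8) (by norm_num)
      linarith
    have h3 : (1 + Real.log n) * Real.log n ≤ 72 * (n : ℝ) ^ (1 / 4 : ℝ) := by
      have h4 : (n : ℝ) ^ (1 / 4 : ℝ) = (n : ℝ) ^ (1 / 8 : ℝ) * (n : ℝ) ^ (1 / 8 : ℝ) := by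
        rw [← Real.rpow_add (by linarith)]
        norm_num
      rw [h4]
      calc (1 + Real.log n) * Real.log n
          ≤ (9 * (n : ℝ) ^ (1 / 8 : ℝ)) * (8 * (n : ℝ) ^ (1 / 8 : ℝ)) := by
            apply mul_le_mul _ h2 hlog.le (by positivity)
            linarith
        _ = _ := by ring
    have h4 : (n : ℝ) ^ (1 / 4 : ℝ) * (n : ℝ) ^ (1 / 4 : ℝ) = √(n : ℝ) := by
      rw [← Real.rpow_add (by linarith), Real.sqrt_eq_rpow]
      norm_num
    rw [le_div_iff₀ hlog]
    have h5 : (n : ℝ) ^ (1 / 4 : ℝ) * a * ((1 + Real.log n) * Real.log n) ≤ a₂ * 72 := by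
      calc (n : ℝ) ^ (1 / 4 : ℝ) * a * ((1 + Real.log n) * Real.log n)
          ≤ (n : ℝ) ^ (1 / 4 : ℝ) * (a₂ / √(n : ℝ)) * (72 * (n : ℝ) ^ (1 / 4 : ℝ)) := by
            gcongr
        _ = 72 * a₂ / √(n : ℝ) * ((n : ℝ) ^ (1 / 4 : ℝ) * (n : ℝ) ^ (1 / 4 : ℝ)) := by ring
        _ = a₂ * 72 := by
            rw [h4]
            field_simp
    calc 16 * C ^ 2 * Real.exp 1 * (n : ℝ) ^ (1 / 4 : ℝ) * a * (1 + Real.log n) * Real.log n
        = 16 * C ^ 2 * Real.exp 1 *
            ((n : ℝ) ^ (1 / 4 : ℝ) * a * ((1 + Real.log n) * Real.log n)) := by ring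
      _ ≤ 16 * C ^ 2 * Real.exp 1 * (a₂ * 72) := by gcongr
      _ = _ := by ring
  have hS3 : 4 * C ^ 2 * (4 * a / Real.log n) * (2 * ((1 + a) / a)) ≤
      32 * C ^ 2 * (1 + a₂) / Real.log n := by
    have h2 : 4 * C ^ 2 * (4 * a / Real.log n) * (2 * ((1 + a) / a)) =
        32 * C ^ 2 * (1 + a) / Real.log n := by
      field_simp
      ring
    rw [h2]
    gcongr
  calc zII n ≤ ∑ t ∈ Icc 1 n, (cores t n : ℝ) * pp (n - t) / (pp n : ℝ) ^ 2 := zII_le hpart n
    _ ≤ ∑ t ∈ Icc 1 n, (C * Real.exp (-(a₁ / 4 * √(n : ℝ))) +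
      (16 * C ^ 2 * Real.exp 1 * (n : ℝ) ^ (1 / 4 : ℝ) * a * (1 / t) +
      4 * C ^ 2 * (4 * a / Real.log n) *
        Real.exp (-|t * a - (-Real.log (4 * a / Real.log n))|))) := sum_le_sum hterm
    _ = (n : ℝ) * (C * Real.exp (-(a₁ / 4 * √(n : ℝ)))) +
        (16 * C ^ 2 * Real.exp 1 * (n : ℝ) ^ (1 / 4 : ℝ) * a * ∑ t ∈ Icc 1 n, (1 : ℝ) / t +
        4 * C ^ 2 * (4 * a / Real.log n) * ∑ t ∈ Icc 1 n,
          Real.exp (-|t * a - (-Real.log (4 * a / Real.log n))|)) := by
        rw [sum_add_distrib, sum_add_distrib, mul_sum, mul_sum]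
        simp
    _ ≤ (n : ℝ) * (C * Real.exp (-(a₁ / 4 * √(n : ℝ)))) +
        (16 * C ^ 2 * Real.exp 1 * (n : ℝ) ^ (1 / 4 : ℝ) * a * (1 + Real.log n) +
        4 * C ^ 2 * (4 * a / Real.log n) * (2 * ((1 + a) / a))) := by
        gcongr
        · exact sum_inv_le n
        · exact tent_le ha _ _
    _ ≤ 6144 * C / a₁ ^ 4 / Real.log n + (16 * C ^ 2 * Real.exp 1 * a₂ * 72 / Real.log n +
        32 * C ^ 2 * (1 + a₂) / Real.log n) := add_le_add hS1 (add_le_add hS2 hS3)
    _ = _ := by ring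

end Pool.Agent.W5h11.PZ
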