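import Mathlib

/-! The sums `∑ d ^ r exp (- y d)`. -/

set_option autoImplicit false

namespace Pool.Agent.W5h11.PZ

open Finset Real

/-- `∑ d ^ r exp (- y d)` -/
noncomputable def gs (r : ℕ) (y : ℝ) : ℝ := ∑' d : ℕ, (d : ℝ) ^ r * exp (-(y * d))

theorem exp_pow (y : ℝ) (d : ℕ) : exp (-(y * d)) = exp (-y) ^ d := by
  rw [← Real.exp_nat_mul]; congr 1; ring

theorem choose_sum {r : ℕ} {x : ℝ} (h0 : 0 ≤ x) (h1 : x < 1) :
    HasSum (fun n : ℕ => ((n + r).choose r : ℝ) * x ^ n) (1 / (1 - x) ^ (r + 1)) := by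
  have hx : ‖x‖ < 1 := by rwa [Real.norm_of_nonneg h0]
  have := (summable_choose_mul_geometric_of_norm_lt_one r hx).hasSum
  rwa [tsum_choose_mul_geometric_of_norm_lt_one r hx] at this

theorem asc_ge (n r : ℕ) : ((n + 1 : ℕ) : ℝ) ^ r ≤ (r.factorial : ℝ) * ((n + r).choose r : ℝ) := by
  have h := Nat.pow_succ_le_ascFactorial (n + 1) r
  rw [Nat.ascFactorial_eq_factorial_mul_choose] at h
  exact_mod_cast h

theorem desc_le (n r : ℕ) : (r.factorial : ℝ) * ((n + r).choose r : ℝ) ≤ ((n + r : ℕ) : ℝ) ^ r := by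
  have h := Nat.descFactorial_le_pow (n + r) r
  rw [Nat.descFactorial_eq_factorial_mul_choose] at h
  exact_mod_cast h

theorem exp_lt {y : ℝ} (hy : 0 < y) : exp (-y) < 1 := by
  rw [Real.exp_lt_one_iff]; linarith

theorem gs_summable {r : ℕ} (hr : 1 ≤ r) {y : ℝ} (hy : 0 < y) :
    Summable fun d : ℕ => (d : ℝ) ^ r * exp (-(y * d)) := by
  rw [← summable_nat_add_iff 1]
  refine Summable.of_nonneg_of_le (fun n => by positivity) (fun n => ?_)
    (((choose_sum (r := r) (exp_pos (-y)).le (exp_lt hy)).summable.mul_left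
      ((r.factorial : ℝ) * exp (-y))))
  rw [exp_pow, pow_succ]
  have h1 := asc_ge n r
  have h2 : 0 ≤ exp (-y) ^ n * exp (-y) := by positivity
  calc ((n + 1 : ℕ) : ℝ) ^ r * (exp (-y) ^ n * exp (-y))
      ≤ ((r.factorial : ℝ) * ((n + r).choose r : ℝ)) * (exp (-y) ^ n * exp (-y)) :=
        mul_le_mul_of_nonneg_right h1 h2
    _ = _ := by ring

theorem gs_upper0 {r : ℕ} (hr : 1 ≤ r) {y : ℝ} (hy : 0 < y) :
    gs r y ≤ (r.factorial : ℝ) * exp (-y) / (1 - exp (-y)) ^ (r + 1) := by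
  have hs := gs_summable hr hy
  have hc := (choose_sum (r := r) (exp_pos (-y)).le (exp_lt hy)).mul_left
    ((r.factorial : ℝ) * exp (-y))
  unfold gs
  rw [hs.tsum_eq_zero_add]
  have h0 : ((0 : ℕ) : ℝ) ^ r * exp (-(y * (0 : ℕ))) = 0 := by
    rw [Nat.cast_zero, zero_pow (by omega), zero_mul]
  rw [h0, zero_add]
  have h1 : ∑' n : ℕ, ((n + 1 : ℕ) : ℝ) ^ r * exp (-(y * (n + 1 : ℕ))) ≤
      (r.factorial : ℝ) * exp (-y) * (1 / (1 - exp (-y)) ^ (r + 1)) := by
    rw [← hc.tsum_eq]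
    refine ((summable_nat_add_iff 1).2 hs).tsum_le_tsum (fun n => ?_) hc.summable
    rw [exp_pow, pow_succ]
    have h1 := asc_ge n r
    have h2 : 0 ≤ exp (-y) ^ n * exp (-y) := by positivity
    calc ((n + 1 : ℕ) : ℝ) ^ r * (exp (-y) ^ n * exp (-y))
        ≤ ((r.factorial : ℝ) * ((n + r).choose r : ℝ)) * (exp (-y) ^ n * exp (-y)) :=
          mul_le_mul_of_nonneg_right h1 h2
      _ = _ := by ring
  refine h1.trans (le_of_eq ?_)
  ring

theorem gs_lower0 {r : ℕ} (hr : 1 ≤ r) {y : ℝ} (hy : 0 < y) :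
    (r.factorial : ℝ) * exp (-y) ^ r / (1 - exp (-y)) ^ (r + 1) ≤ gs r y := by
  have hs := gs_summable hr hy
  have hc := (choose_sum (r := r) (exp_pos (-y)).le (exp_lt hy)).mul_left
    ((r.factorial : ℝ) * exp (-y) ^ r)
  unfold gs
  rw [← hs.sum_add_tsum_nat_add r]
  have h1 : (r.factorial : ℝ) * exp (-y) ^ r * (1 / (1 - exp (-y)) ^ (r + 1)) ≤
      ∑' n : ℕ, ((n + r : ℕ) : ℝ) ^ r * exp (-(y * (n + r : ℕ))) := by
    rw [← hc.tsum_eq]
    refine hc.summable.tsum_le_tsum (fun n => ?_) ((summable_nat_add_iff r).2 hs)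
    rw [exp_pow, pow_add]
    have h1 := desc_le n r
    have h2 : 0 ≤ exp (-y) ^ n * exp (-y) ^ r := by positivity
    calc (r.factorial : ℝ) * exp (-y) ^ r * (((n + r).choose r : ℝ) * exp (-y) ^ n)
        = ((r.factorial : ℝ) * ((n + r).choose r : ℝ)) * (exp (-y) ^ n * exp (-y) ^ r) := by ring
      _ ≤ _ := mul_le_mul_of_nonneg_right h1 h2
  have h2 : 0 ≤ ∑ i ∈ range r, (i : ℝ) ^ r * exp (-(y * i)) :=
    sum_nonneg fun i _ => by positivity
  calc _ = (r.factorial : ℝ) * exp (-y) ^ r * (1 / (1 - exp (-y)) ^ (r + 1)) := by ring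
    _ ≤ _ := h1
    _ ≤ _ := by linarith

/-- `1 - exp (-y) ≥ y / (1 + y)` -/
theorem one_sub_ge {y : ℝ} (hy : 0 < y) : y / (1 + y) ≤ 1 - exp (-y) := by
  have h1 : 1 + y ≤ exp y := by linarith [Real.add_one_le_exp y]
  have h2 : exp (-y) ≤ 1 / (1 + y) := by
    rw [Real.exp_neg, ← one_div]
    exact one_div_le_one_div_of_le (by linarith) h1
  have h3 : y / (1 + y) = 1 - 1 / (1 + y) := by field_simp; ring
  linarith

theorem one_sub_le {y : ℝ} : 1 - exp (-y) ≤ y := by linarith [Real.add_one_le_exp (-y)]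

theorem gs_upper1 {r : ℕ} (hr : 1 ≤ r) {y : ℝ} (hy : 0 < y) :
    gs r y ≤ (r.factorial : ℝ) * ((1 + y) ^ (r + 1) * exp (-y)) / y ^ (r + 1) := by
  refine (gs_upper0 hr hy).trans ?_
  have h1 := one_sub_ge hy
  have h2 : 0 < y / (1 + y) := by positivity
  have h3 : (y / (1 + y)) ^ (r + 1) ≤ (1 - exp (-y)) ^ (r + 1) :=
    pow_le_pow_left₀ h2.le h1 _
  calc (r.factorial : ℝ) * exp (-y) / (1 - exp (-y)) ^ (r + 1)
      ≤ (r.factorial : ℝ) * exp (-y) / (y / (1 + y)) ^ (r + 1) :=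
        div_le_div_of_nonneg_left (by positivity) (by positivity) h3
    _ = _ := by
        rw [div_pow]
        field_simp

theorem gs_lower1 {r : ℕ} (hr : 1 ≤ r) {y : ℝ} (hy : 0 < y) :
    (r.factorial : ℝ) * exp (-(r * y)) / y ^ (r + 1) ≤ gs r y := by
  refine le_trans ?_ (gs_lower0 hr hy)
  have h0 : exp (-(r * y)) = exp (-y) ^ r := by
    rw [← Real.exp_nat_mul]; congr 1; ring
  rw [h0]
  have h1 : 0 < 1 - exp (-y) := by linarith [exp_lt hy]
  exact div_le_div_of_nonneg_left (by positivity) (by positivity)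
    (pow_le_pow_left₀ h1.le one_sub_le _)

/-- the constant -/
noncomputable def cg (r : ℕ) : ℝ := (r.factorial : ℝ) * (r * exp r + (r + 1).factorial * exp 1 + r)

theorem cg_nonneg (r : ℕ) : 0 ≤ cg r := by unfold cg; positivity

theorem bump {r : ℕ} {y : ℝ} (hy : 0 < y) :
    (1 + y) ^ (r + 1) * exp (-y) ≤ 1 + (r * exp r + (r + 1).factorial * exp 1) * y ^ (3 / 4 : ℝ) := by
  rcases le_or_gt y 1 with h | h
  · have h1 : (1 + y) ^ (r + 1) ≤ exp y ^ (r + 1) :=
      pow_le_pow_left₀ (by linarith) (by linarith [Real.add_one_le_exp y]) _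
    have h2 : exp y ^ (r + 1) * exp (-y) = exp (r * y) := by
      rw [pow_succ, mul_assoc, ← Real.exp_add, add_neg_cancel, Real.exp_zero, mul_one,
        ← Real.exp_nat_mul]
    have h3 : exp (r * y) ≤ 1 + r * y * exp (r * y) := by
      have := Real.add_one_le_exp (-(r * y : ℝ))
      have h4 : exp (r * y) * exp (-(r * y : ℝ)) = 1 := by
        rw [← Real.exp_add]; simp
      have h5 := mul_le_mul_of_nonneg_left this (exp_pos (r * y : ℝ)).le
      rw [h4] at h5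
      linarith
    have h4 : exp (r * y) ≤ exp r := Real.exp_le_exp.2 (by
      have : (0 : ℝ) ≤ r := by positivity
      nlinarith)
    have h5 : y ≤ y ^ (3 / 4 : ℝ) := by
      calc y = y ^ (1 : ℝ) := (Real.rpow_one y).symm
        _ ≤ y ^ (3 / 4 : ℝ) := Real.rpow_le_rpow_of_exponent_ge hy h (by norm_num)
    have h6 : (1 + y) ^ (r + 1) * exp (-y) ≤ 1 + r * y * exp (r * y) := by
      calc _ ≤ exp y ^ (r + 1) * exp (-y) := mul_le_mul_of_nonneg_right h1 (exp_pos _).le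
        _ = exp (r * y) := h2
        _ ≤ _ := h3
    have h7 : r * y * exp (r * y) ≤ r * exp r * y ^ (3 / 4 : ℝ) := by
      calc (r : ℝ) * y * exp (r * y) ≤ r * y ^ (3 / 4 : ℝ) * exp r := by gcongr
        _ = _ := by ring
    have h8 : 0 ≤ ((r + 1).factorial : ℝ) * exp 1 * y ^ (3 / 4 : ℝ) := by positivity
    linarith [h6, h7, h8, add_mul (r * exp r) (((r + 1).factorial : ℝ) * exp 1) (y ^ (3 / 4 : ℝ))]
  · have h1 : (1 + y) ^ (r + 1) ≤ (r + 1).factorial * exp (1 + y) := by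
      have := Real.pow_div_factorial_le_exp (1 + y) (by linarith) (r + 1)
      rw [div_le_iff₀ (by positivity)] at this
      linarith
    have h2 : (1 : ℝ) ≤ y ^ (3 / 4 : ℝ) := Real.one_le_rpow h.le (by norm_num)
    have h3 : exp (1 + y) * exp (-y) = exp 1 := by rw [← Real.exp_add]; congr 1; ring
    have h4 : (1 + y) ^ (r + 1) * exp (-y) ≤ (r + 1).factorial * exp 1 := by
      calc _ ≤ ((r + 1).factorial * exp (1 + y)) * exp (-y) :=
            mul_le_mul_of_nonneg_right h1 (exp_pos _).le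
        _ = _ := by rw [mul_assoc, h3]
    have h5 : 0 ≤ (r : ℝ) * exp r * y ^ (3 / 4 : ℝ) := by positivity
    have h6 : ((r + 1).factorial : ℝ) * exp 1 * 1 ≤ (r + 1).factorial * exp 1 * y ^ (3 / 4 : ℝ) :=
      mul_le_mul_of_nonneg_left h2 (by positivity)
    linarith [add_mul (r * exp r) (((r + 1).factorial : ℝ) * exp 1) (y ^ (3 / 4 : ℝ))]

theorem gs_approx {r : ℕ} (hr : 1 ≤ r) {y : ℝ} (hy : 0 < y) :
    |gs r y - r.factorial / y ^ (r + 1)| ≤ cg r * y ^ (3 / 4 : ℝ) / y ^ (r + 1) := by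
  have hf : (0 : ℝ) < r.factorial := by exact_mod_cast Nat.factorial_pos r
  have hyp : 0 < y ^ (r + 1) := by positivity
  have hq : 0 ≤ y ^ (3 / 4 : ℝ) := by positivity
  rw [abs_le]
  constructor
  · have h1 := gs_lower1 hr hy
    have h2 : 1 - r * y ^ (3 / 4 : ℝ) ≤ exp (-(r * y)) := by
      rcases le_or_gt y 1 with h | h
      · have h5 : y ≤ y ^ (3 / 4 : ℝ) := by
          calc y = y ^ (1 : ℝ) := (Real.rpow_one y).symm
            _ ≤ y ^ (3 / 4 : ℝ) := Real.rpow_le_rpow_of_exponent_ge hy h (by norm_num)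
        have h6 := Real.add_one_le_exp (-(r * y : ℝ))
        have h7 : (r : ℝ) * y ≤ r * y ^ (3 / 4 : ℝ) := by gcongr
        linarith
      · have h2 : (1 : ℝ) ≤ y ^ (3 / 4 : ℝ) := Real.one_le_rpow h.le (by norm_num)
        have h3 : (1 : ℝ) ≤ r := by exact_mod_cast hr
        nlinarith [exp_pos (-(r * y : ℝ))]
    have h3 : (r.factorial : ℝ) * (1 - r * y ^ (3 / 4 : ℝ)) / y ^ (r + 1) ≤
        (r.factorial : ℝ) * exp (-(r * y)) / y ^ (r + 1) := by gcongr
    have h4 : -(cg r * y ^ (3 / 4 : ℝ) / y ^ (r + 1)) ≤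
        (r.factorial : ℝ) * (1 - r * y ^ (3 / 4 : ℝ)) / y ^ (r + 1) - r.factorial / y ^ (r + 1) := by
      have : (r.factorial : ℝ) * (1 - r * y ^ (3 / 4 : ℝ)) / y ^ (r + 1) - r.factorial / y ^ (r + 1) +
          cg r * y ^ (3 / 4 : ℝ) / y ^ (r + 1) =
          (r.factorial : ℝ) * ((r * exp r + (r + 1).factorial * exp 1) * y ^ (3 / 4 : ℝ)) /
            y ^ (r + 1) := by
        unfold cg; field_simp; ring
      have h5 : 0 ≤ (r.factorial : ℝ) * ((r * exp r + (r + 1).factorial * exp 1) *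
          y ^ (3 / 4 : ℝ)) / y ^ (r + 1) := by positivity
      linarith
    linarith
  · have h1 := gs_upper1 hr hy
    have h2 := bump (r := r) hy
    have h3 : (r.factorial : ℝ) * ((1 + y) ^ (r + 1) * exp (-y)) / y ^ (r + 1) ≤
        (r.factorial : ℝ) * (1 + (r * exp r + (r + 1).factorial * exp 1) * y ^ (3 / 4 : ℝ)) /
          y ^ (r + 1) := by gcongr
    have h4 : (r.factorial : ℝ) * (1 + (r * exp r + (r + 1).factorial * exp 1) *
        y ^ (3 / 4 : ℝ)) / y ^ (r + 1) - r.factorial / y ^ (r + 1) ≤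
        cg r * y ^ (3 / 4 : ℝ) / y ^ (r + 1) := by
      have : cg r * y ^ (3 / 4 : ℝ) / y ^ (r + 1) - ((r.factorial : ℝ) * (1 + (r * exp r +
          (r + 1).factorial * exp 1) * y ^ (3 / 4 : ℝ)) / y ^ (r + 1) -
          r.factorial / y ^ (r + 1)) = (r.factorial : ℝ) * r * y ^ (3 / 4 : ℝ) / y ^ (r + 1) := by
        unfold cg; field_simp; ring
      have h5 : 0 ≤ (r.factorial : ℝ) * r * y ^ (3 / 4 : ℝ) / y ^ (r + 1) := by positivity
      linarith
    linarith

/-- the constant -/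
noncomputable def cu (r : ℕ) : ℝ := (r.factorial : ℝ) * ((r + 1).factorial * exp 1)

theorem cu_nonneg (r : ℕ) : 0 ≤ cu r := by unfold cu; positivity

theorem gs_le {r : ℕ} (hr : 1 ≤ r) {y : ℝ} (hy : 0 < y) : gs r y ≤ cu r / y ^ (r + 1) := by
  refine (gs_upper1 hr hy).trans ?_
  have h1 : (1 + y) ^ (r + 1) ≤ (r + 1).factorial * exp (1 + y) := by
    have := Real.pow_div_factorial_le_exp (1 + y) (by linarith) (r + 1)
    rw [div_le_iff₀ (by positivity)] at this
    linarith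
  have h3 : exp (1 + y) * exp (-y) = exp 1 := by rw [← Real.exp_add]; congr 1; ring
  have h4 : (1 + y) ^ (r + 1) * exp (-y) ≤ (r + 1).factorial * exp 1 := by
    calc _ ≤ ((r + 1).factorial * exp (1 + y)) * exp (-y) :=
          mul_le_mul_of_nonneg_right h1 (exp_pos _).le
      _ = _ := by rw [mul_assoc, h3]
  unfold cu
  gcongr

theorem gs_nonneg (r : ℕ) (y : ℝ) : 0 ≤ gs r y := tsum_nonneg fun d => by positivity

end Pool.Agent.W5h11.PZ
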