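import Pool.Agent.W5h11.PZ.Defs

/-! Interface of the parts of task A. -/

set_option autoImplicit false

namespace Pool.Agent.W5h11.PZ

open Finset Real

/-- The product `m d` where `x = (m - 1, d)`. -/
def ks (x : ℕ × ℕ) : ℕ := (x.1 + 1) * x.2

/-- The term `d (m d) ^ j e ^ (- a m d)`, where `x = (m - 1, d)`. -/
noncomputable def tm (j : ℕ) (a : ℝ) (x : ℕ × ℕ) : ℝ := (x.2 : ℝ) * (ks x : ℝ) ^ j * exp (-(a * ks x))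

/-- `T j a = ∑ d (m d) ^ j e ^ (- a m d)` over all `m, d ≥ 1`. -/
noncomputable def T (j : ℕ) (a : ℝ) : ℝ := ∑' x : ℕ × ℕ, tm j a x

/-- What is needed about the saddle points `α n`. -/
structure Good (α : ℕ → ℝ) (C : ℝ) : Prop where
  C1 : 1 ≤ C
  sm : ∀ (j : ℕ) (a : ℝ), 0 < a → Summable (tm j a)
  pos : ∀ n : ℕ, 1 ≤ n → 0 < α n
  lo : ∀ n : ℕ, 1 ≤ n → 1 / (C * √n) ≤ α n
  hi : ∀ n : ℕ, 1 ≤ n → α n ≤ C / √n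
  T0 : ∀ n : ℕ, 1 ≤ n → T 0 (α n) = n
  anti : ∀ m n : ℕ, 1 ≤ m → m ≤ n → α n ≤ α m
  step_lo : ∀ n i : ℕ, i < n → i / T 1 (α n) ≤ α (n - i) - α n
  step_hi : ∀ n i : ℕ, 1 ≤ n → 2 * i ≤ n → α (n - i) - α n ≤ i / T 1 (α n) * (1 + C * i / n)
  T1lo : ∀ n : ℕ, 1 ≤ n → n * √n / C ≤ T 1 (α n)
  T1hi : ∀ n : ℕ, 1 ≤ n → T 1 (α n) ≤ C * (n * √n)
  T2hi : ∀ n : ℕ, 1 ≤ n → T 2 (α n) ≤ C * n ^ 2
  T3hi : ∀ n : ℕ, 1 ≤ n → T 3 (α n) ≤ C * (n ^ 2 * √n)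
  T4hi : ∀ n : ℕ, 1 ≤ n → T 4 (α n) ≤ C * n ^ 3
  bal : ∀ n : ℕ, 1 ≤ n →
    |3 / 4 * T 1 (α n) / n - T 2 (α n) / (2 * T 1 (α n))| ≤ C * (n : ℝ) ^ (1 / 8 : ℝ)
  tail : ∀ n j : ℕ, 1 ≤ n → j ≤ 1 → ∑' x : ℕ × ℕ, (if n < 2 * ks x then tm j (α n) x else 0) ≤ C / n

/-- `F m = α 1 + … + α m` -/
noncomputable def F (α : ℕ → ℝ) (m : ℕ) : ℝ := ∑ i ∈ range m, α (i + 1)

/-- The super-solution. -/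
noncomputable def U (α : ℕ → ℝ) (m : ℕ) : ℝ :=
  if m = 0 then 1 else exp (F α m) * (m : ℝ) ^ (-(3 / 4) : ℝ) * (1 - (m : ℝ) ^ (-(1 / 4) : ℝ) / 2)

/-- The sub-solution. -/
noncomputable def V (α : ℕ → ℝ) (m : ℕ) : ℝ :=
  if m = 0 then 0 else exp (F α m) * (m : ℝ) ^ (-(3 / 4) : ℝ) * (1 + (m : ℝ) ^ (-(1 / 4) : ℝ))

/-- The index set: all `(m - 1, d)` with `m, d ≥ 1` and `m d ≤ n` (and some with `d = 0`). -/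
def Ix (n : ℕ) : Finset (ℕ × ℕ) := (range n ×ˢ range (n + 1)).filter fun x => ks x ≤ n

/-- Task A4u. -/
def S_UP (α : ℕ → ℝ) : Prop := ∃ n₁ : ℕ, ∀ n : ℕ, n₁ ≤ n →
  ∑ x ∈ Ix n, (x.2 : ℝ) * U α (n - ks x) ≤ n * U α n

/-- Task A4l. -/
def S_LO (α : ℕ → ℝ) : Prop := ∃ n₁ : ℕ, ∀ n : ℕ, n₁ ≤ n →
  n * V α n ≤ ∑ x ∈ Ix n, (x.2 : ℝ) * V α (n - ks x)

/-- Task A5. -/
def S_A5 : Prop := ∀ (α : ℕ → ℝ) (C : ℝ), Good α C → S_UP α → S_LO α → S_REC → S_GROWTH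

end Pool.Agent.W5h11.PZ
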