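import Mathlib
import Pool.Agent.W5h11.PZ.Iface

/-!
# Task A5: from super- and sub-solutions of the recursion to the growth of `p`
-/

set_option autoImplicit false

namespace Pool.Agent.W5h11.PZ

open Finset Real

theorem rec_Ix (h : S_REC) (n : ℕ) : n * pp n = ∑ x ∈ Ix n, x.2 * pp (n - ks x) := by
  rw [h n]
  have h1 : ∑ x ∈ Ix n, x.2 * pp (n - ks x) =
      ∑ x ∈ (Ix n).filter (fun x => x.2 ≠ 0), x.2 * pp (n - ks x) := by
    rw [sum_filter]
    refine sum_congr rfl fun x _ => ?_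
    split_ifs with h0
    · rfl
    · rw [not_not.1 h0, zero_mul]
  rw [h1]
  refine sum_nbij' (fun x => (x.1 - 1, x.2)) (fun x => (x.1 + 1, x.2)) ?_ ?_ ?_ ?_ ?_
  · rintro ⟨m, d⟩ hx
    simp only [mem_filter, mem_product, mem_Icc] at hx
    have hm : m - 1 + 1 = m := Nat.sub_add_cancel hx.1.1.1
    simp only [Ix, ks, mem_filter, mem_product, mem_range, hm]
    exact ⟨⟨⟨by omega, by omega⟩, hx.2⟩, by omega⟩
  · rintro ⟨m, d⟩ hx
    simp only [Ix, ks, mem_filter, mem_product, mem_range] at hx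
    simp only [mem_filter, mem_product, mem_Icc]
    exact ⟨⟨⟨by omega, by omega⟩, by omega, by omega⟩, hx.1.2⟩
  · rintro ⟨m, d⟩ hx
    simp only [mem_filter, mem_product, mem_Icc] at hx
    simp only [Prod.mk.injEq, and_true]
    omega
  · rintro ⟨m, d⟩ _
    simp
  · rintro ⟨m, d⟩ hx
    simp only [mem_filter, mem_product, mem_Icc] at hx
    have hm : m - 1 + 1 = m := Nat.sub_add_cancel hx.1.1.1
    simp only [ks, hm]

theorem one_le_pp (n : ℕ) : (1 : ℝ) ≤ pp n := by
  have : 0 < pp n := Fintype.card_pos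
  exact_mod_cast this

theorem rpow_neg_le_one {m : ℕ} (hm : 1 ≤ m) {s : ℝ} (hs : 0 ≤ s) : (m : ℝ) ^ (-s) ≤ 1 :=
  Real.rpow_le_one_of_one_le_of_nonpos (by exact_mod_cast hm) (by linarith)

theorem U_pos (α : ℕ → ℝ) (m : ℕ) : 0 < U α m := by
  unfold U
  split_ifs with h
  · exact one_pos
  · have hm : 1 ≤ m := Nat.one_le_iff_ne_zero.2 h
    have h1 := rpow_neg_le_one hm (s := 1 / 4) (by norm_num)
    have h2 : (0 : ℝ) < (m : ℝ) ^ (-(3 / 4) : ℝ) := Real.rpow_pos_of_pos (by exact_mod_cast hm) _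
    have h3 : (0 : ℝ) < 1 - (m : ℝ) ^ (-(1 / 4) : ℝ) / 2 := by linarith
    positivity

theorem V_nonneg (α : ℕ → ℝ) (m : ℕ) : 0 ≤ V α m := by
  unfold V
  split_ifs with h
  · exact le_rfl
  · positivity

theorem U_le (α : ℕ → ℝ) {m : ℕ} (hm : 1 ≤ m) :
    U α m ≤ exp (F α m) * (m : ℝ) ^ (-(3 / 4) : ℝ) := by
  unfold U
  rw [if_neg (by omega)]
  have h2 : (0 : ℝ) < (m : ℝ) ^ (-(1 / 4) : ℝ) := Real.rpow_pos_of_pos (by exact_mod_cast hm) _
  refine mul_le_of_le_one_right (by positivity) (by linarith)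

theorem le_V (α : ℕ → ℝ) {m : ℕ} (hm : 1 ≤ m) :
    exp (F α m) * (m : ℝ) ^ (-(3 / 4) : ℝ) ≤ V α m := by
  unfold V
  rw [if_neg (by omega)]
  have h2 : (0 : ℝ) < (m : ℝ) ^ (-(1 / 4) : ℝ) := Real.rpow_pos_of_pos (by exact_mod_cast hm) _
  refine le_mul_of_one_le_right (by positivity) (by linarith)

theorem upper {α : ℕ → ℝ} (h : S_UP α) (hr : S_REC) :
    ∃ K : ℝ, 0 < K ∧ ∀ m : ℕ, (pp m : ℝ) ≤ K * U α m := by
  obtain ⟨n₁, hn⟩ := h
  have hpos : ∀ m ∈ range (n₁ + 1), 0 ≤ (pp m : ℝ) / U α m :=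
    fun m _ => div_nonneg (Nat.cast_nonneg _) (U_pos α m).le
  refine ⟨∑ m ∈ range (n₁ + 1), (pp m : ℝ) / U α m, ?_, ?_⟩
  · refine sum_pos (fun m _ => div_pos (lt_of_lt_of_le one_pos (one_le_pp m)) (U_pos α m)) ?_
    exact ⟨0, mem_range.2 (by omega)⟩
  · intro m
    induction m using Nat.strong_induction_on with
    | _ m ih =>
      set K := ∑ m ∈ range (n₁ + 1), (pp m : ℝ) / U α m with hK
      by_cases hm : m ≤ n₁
      · have h1 : (pp m : ℝ) / U α m ≤ K :=
          single_le_sum hpos (mem_range.2 (by omega))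
        rwa [div_le_iff₀ (U_pos α m)] at h1
      · push Not at hm
        have hm0 : (0 : ℝ) < m := by
          have : 0 < m := by omega
          exact_mod_cast this
        have h1 := rec_Ix hr m
        have h2 : (m : ℝ) * pp m = ∑ x ∈ Ix m, (x.2 : ℝ) * pp (m - ks x) := by
          exact_mod_cast h1
        have h3 : ∑ x ∈ Ix m, (x.2 : ℝ) * pp (m - ks x) ≤
            ∑ x ∈ Ix m, K * ((x.2 : ℝ) * U α (m - ks x)) := by
          refine sum_le_sum fun x hx => ?_
          rcases Nat.eq_zero_or_pos x.2 with h0 | h0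
          · simp [h0]
          · have hk : 1 ≤ ks x := Nat.mul_pos (Nat.succ_pos _) h0
            have := ih (m - ks x) (by omega)
            calc (x.2 : ℝ) * pp (m - ks x) ≤ x.2 * (K * U α (m - ks x)) :=
                  mul_le_mul_of_nonneg_left this (Nat.cast_nonneg _)
              _ = _ := by ring
        rw [← mul_sum] at h3
        have hKn : 0 ≤ K := sum_nonneg hpos
        have h4 := mul_le_mul_of_nonneg_left (hn m hm.le) hKn
        have h5 : (m : ℝ) * pp m ≤ m * (K * U α m) := by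
          rw [h2]
          refine (h3.trans h4).trans (le_of_eq ?_)
          ring
        exact le_of_mul_le_mul_left h5 hm0

theorem lower {α : ℕ → ℝ} (h : S_LO α) (hr : S_REC) :
    ∃ κ : ℝ, 0 < κ ∧ ∀ m : ℕ, κ * V α m ≤ pp m := by
  obtain ⟨n₁, hn⟩ := h
  set S := ∑ m ∈ range (n₁ + 1), V α m with hS
  have hS0 : 0 ≤ S := sum_nonneg fun m _ => V_nonneg α m
  refine ⟨1 / (1 + S), by positivity, ?_⟩
  intro m
  induction m using Nat.strong_induction_on with
  | _ m ih =>
    set κ := 1 / (1 + S) with hκ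
    have hκ0 : 0 < κ := by positivity
    by_cases hm : m ≤ n₁
    · have h1 : V α m ≤ S := single_le_sum (fun m _ => V_nonneg α m) (mem_range.2 (by omega))
      refine le_trans ?_ (one_le_pp m)
      rw [hκ, one_div, inv_mul_le_iff₀ (by positivity)]
      linarith
    · push Not at hm
      have hm0 : (0 : ℝ) < m := by
        have : 0 < m := by omega
        exact_mod_cast this
      have h1 := rec_Ix hr m
      have h2 : (m : ℝ) * pp m = ∑ x ∈ Ix m, (x.2 : ℝ) * pp (m - ks x) := by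
        exact_mod_cast h1
      have h3 : ∑ x ∈ Ix m, κ * ((x.2 : ℝ) * V α (m - ks x)) ≤
          ∑ x ∈ Ix m, (x.2 : ℝ) * pp (m - ks x) := by
        refine sum_le_sum fun x hx => ?_
        rcases Nat.eq_zero_or_pos x.2 with h0 | h0
        · simp [h0]
        · have hk : 1 ≤ ks x := Nat.mul_pos (Nat.succ_pos _) h0
          have := ih (m - ks x) (by omega)
          calc κ * ((x.2 : ℝ) * V α (m - ks x)) = x.2 * (κ * V α (m - ks x)) := by ring
            _ ≤ _ := mul_le_mul_of_nonneg_left this (Nat.cast_nonneg _)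
      rw [← mul_sum] at h3
      have h4 := mul_le_mul_of_nonneg_left (hn m hm.le) hκ0.le
      have h5 : (m : ℝ) * (κ * V α m) ≤ m * pp m := by
        rw [h2]
        refine le_trans (le_of_eq ?_) (h4.trans h3)
        ring
      exact le_of_mul_le_mul_left h5 hm0

theorem F_add {α : ℕ → ℝ} {C : ℝ} (h : Good α C) {n : ℕ} (hn : 1 ≤ n) (s : ℕ) :
    F α (n + s) ≤ F α n + s * α n := by
  induction s with
  | zero => simp
  | succ s ih =>
    have h1 : F α (n + (s + 1)) = F α (n + s) + α (n + s + 1) := by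
      rw [F, ← add_assoc, sum_range_succ]; rfl
    have h2 := h.anti n (n + s + 1) hn (by omega)
    rw [h1]
    push_cast
    linarith

theorem F_sub {α : ℕ → ℝ} {C : ℝ} (h : Good α C) {n : ℕ} (t : ℕ) (ht : t ≤ n) :
    F α (n - t) ≤ F α n - t * α n := by
  induction t with
  | zero => simp
  | succ t ih =>
    have h0 := ih (by omega)
    have h1 : F α (n - t) = F α (n - (t + 1)) + α (n - (t + 1) + 1) := by
      have : n - t = n - (t + 1) + 1 := by omega
      rw [this, F, sum_range_succ]; rfl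
    have h2 := h.anti (n - (t + 1) + 1) n (by omega) (by omega)
    push_cast
    linarith

theorem a5 : S_A5 := by
  intro α C hg hu hl hr
  obtain ⟨K, hK, hKu⟩ := upper hu hr
  obtain ⟨κ, hκ, hκl⟩ := lower hl hr
  have hC : 0 < C := lt_of_lt_of_le one_pos hg.C1
  refine ⟨α, max 1 (2 * K / κ), 1 / C, C, le_max_left _ _, by positivity, hC, ?_⟩
  intro n hn
  have hn0 : (0 : ℝ) < n := by exact_mod_cast hn
  -- the two bounds
  have hup : ∀ m : ℕ, 1 ≤ m → (pp m : ℝ) ≤ K * (exp (F α m) * (m : ℝ) ^ (-(3 / 4) : ℝ)) :=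
    fun m hm => (hKu m).trans (mul_le_mul_of_nonneg_left (U_le α hm) hK.le)
  have hlo : exp (F α n) * (n : ℝ) ^ (-(3 / 4) : ℝ) ≤ pp n / κ := by
    rw [le_div_iff₀ hκ, mul_comm]
    exact (mul_le_mul_of_nonneg_left (le_V α hn) hκ.le).trans (hκl n)
  have hpn : (0 : ℝ) ≤ pp n := Nat.cast_nonneg _
  refine ⟨?_, hg.hi n hn, ?_, ?_⟩
  · have := hg.lo n hn
    rwa [one_div, mul_inv, ← one_div, ← div_eq_mul_inv] at this
  · intro t ht
    have hnt : 1 ≤ n - t := by omega
    have hnt0 : (0 : ℝ) < ((n - t : ℕ) : ℝ) := by exact_mod_cast hnt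
    have h1 : ((n - t : ℕ) : ℝ) ^ (-(3 / 4) : ℝ) ≤ 2 * (n : ℝ) ^ (-(3 / 4) : ℝ) := by
      have hge : (n : ℝ) / 2 ≤ ((n - t : ℕ) : ℝ) := by
        rw [Nat.cast_sub (by omega)]
        have : (2 : ℝ) * t ≤ n := by exact_mod_cast ht
        linarith
      calc ((n - t : ℕ) : ℝ) ^ (-(3 / 4) : ℝ) ≤ ((n : ℝ) / 2) ^ (-(3 / 4) : ℝ) :=
            Real.rpow_le_rpow_of_nonpos (by positivity) hge (by norm_num)
        _ = (n : ℝ) ^ (-(3 / 4) : ℝ) * (2 : ℝ) ^ (3 / 4 : ℝ) := by
            rw [Real.div_rpow hn0.le (by norm_num), Real.rpow_neg (by norm_num : (0 : ℝ) ≤ 2)]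
            rw [div_inv_eq_mul]
        _ ≤ (n : ℝ) ^ (-(3 / 4) : ℝ) * 2 := by
            refine mul_le_mul_of_nonneg_left ?_ (by positivity)
            calc (2 : ℝ) ^ (3 / 4 : ℝ) ≤ (2 : ℝ) ^ (1 : ℝ) :=
                  Real.rpow_le_rpow_of_exponent_le (by norm_num) (by norm_num)
              _ = 2 := Real.rpow_one 2
        _ = _ := by ring
    have h2 : exp (F α (n - t)) ≤ exp (F α n) * exp (-(t * α n)) := by
      rw [← Real.exp_add]
      exact Real.exp_le_exp.2 (by linarith [F_sub hg (n := n) t (by omega)])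
    calc (pp (n - t) : ℝ) ≤ K * (exp (F α (n - t)) * ((n - t : ℕ) : ℝ) ^ (-(3 / 4) : ℝ)) :=
          hup _ hnt
      _ ≤ K * ((exp (F α n) * exp (-(t * α n))) * (2 * (n : ℝ) ^ (-(3 / 4) : ℝ))) := by
          refine mul_le_mul_of_nonneg_left ?_ hK.le
          exact mul_le_mul h2 h1 (by positivity) (by positivity)
      _ = (2 * K * exp (-(t * α n))) * (exp (F α n) * (n : ℝ) ^ (-(3 / 4) : ℝ)) := by ring
      _ ≤ (2 * K * exp (-(t * α n))) * (pp n / κ) :=
          mul_le_mul_of_nonneg_left hlo (by positivity)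
      _ = (2 * K / κ) * (exp (-(t * α n)) * pp n) := by ring
      _ ≤ max 1 (2 * K / κ) * (exp (-(t * α n)) * pp n) :=
          mul_le_mul_of_nonneg_right (le_max_right _ _) (by positivity)
      _ = _ := by ring
  · intro s
    have h1 : ((n + s : ℕ) : ℝ) ^ (-(3 / 4) : ℝ) ≤ (n : ℝ) ^ (-(3 / 4) : ℝ) :=
      Real.rpow_le_rpow_of_nonpos hn0 (by push_cast; linarith [Nat.cast_nonneg (α := ℝ) s])
        (by norm_num)
    have h2 : exp (F α (n + s)) ≤ exp (F α n) * exp (s * α n) := by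
      rw [← Real.exp_add]
      exact Real.exp_le_exp.2 (F_add hg hn s)
    calc (pp (n + s) : ℝ) ≤ K * (exp (F α (n + s)) * ((n + s : ℕ) : ℝ) ^ (-(3 / 4) : ℝ)) :=
          hup _ (by omega)
      _ ≤ K * ((exp (F α n) * exp (s * α n)) * (n : ℝ) ^ (-(3 / 4) : ℝ)) := by
          refine mul_le_mul_of_nonneg_left ?_ hK.le
          exact mul_le_mul h2 h1 (by positivity) (by positivity)
      _ = (K * exp (s * α n)) * (exp (F α n) * (n : ℝ) ^ (-(3 / 4) : ℝ)) := by ring
      _ ≤ (K * exp (s * α n)) * (pp n / κ) :=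
          mul_le_mul_of_nonneg_left hlo (by positivity)
      _ = (K / κ) * (exp (s * α n) * pp n) := by ring
      _ ≤ max 1 (2 * K / κ) * (exp (s * α n) * pp n) := by
          refine mul_le_mul_of_nonneg_right (le_trans ?_ (le_max_right _ _)) (by positivity)
          exact div_le_div_of_nonneg_right (by linarith) hκ.le
      _ = _ := by ring

end Pool.Agent.W5h11.PZ
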