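import Pool.Agent.W5h11.PZ.Defs

/-!
# The recursion for the number of partitions
-/

set_option autoImplicit false

namespace Pool.Agent.W5h11.PZ

open Finset

theorem pp_pos (n : ℕ) : 0 < pp n := Fintype.card_pos

theorem part_count (n t : ℕ) (h1 : 1 ≤ t) (ht : t ≤ n) :
    Nat.card {l : Nat.Partition n // t ∈ l.parts} = pp (n - t) := by
  rw [Nat.card_congr (Nat.Partition.partitionWithPartEquiv h1 ht), Nat.card_eq_fintype_card]
  rfl

theorem pp_mono : Monotone pp := by
  refine monotone_nat_of_le_succ fun n => ?_
  have h := part_count (n + 1) 1 le_rfl (by omega)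
  rw [Nat.add_sub_cancel] at h
  rw [← h]
  have h2 : pp (n + 1) = Nat.card (Nat.Partition (n + 1)) := by
    rw [Nat.card_eq_fintype_card]; rfl
  rw [h2]
  exact Nat.card_le_card_of_injective Subtype.val Subtype.val_injective

/-- The partitions of `n` with at least `m` parts `d` are the partitions of `n - m d`. -/
def multEquiv {n m d : ℕ} (hd : 1 ≤ d) (h : m * d ≤ n) :
    {l : Nat.Partition n // m ≤ l.parts.count d} ≃ Nat.Partition (n - m * d) where
  toFun p := ⟨p.1.parts - Multiset.replicate m d, by
      intro i hi
      exact p.1.parts_pos (Multiset.mem_of_le (Multiset.sub_le_self _ _) hi), by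
      have h1 : p.1.parts - Multiset.replicate m d + Multiset.replicate m d = p.1.parts :=
        Multiset.sub_add_cancel (Multiset.le_count_iff_replicate_le.1 p.2)
      have h2 := congrArg Multiset.sum h1
      rw [Multiset.sum_add, Multiset.sum_replicate, p.1.parts_sum, smul_eq_mul] at h2
      omega⟩
  invFun q := ⟨⟨q.parts + Multiset.replicate m d, by
      intro i hi
      rcases Multiset.mem_add.1 hi with h3 | h3
      · exact q.parts_pos h3
      · rw [Multiset.eq_of_mem_replicate h3]; omega, by
      rw [Multiset.sum_add, q.parts_sum, Multiset.sum_replicate, smul_eq_mul]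
      omega⟩, by
      simp⟩
  left_inv p := Subtype.ext <| Nat.Partition.ext <|
    Multiset.sub_add_cancel (Multiset.le_count_iff_replicate_le.1 p.2)
  right_inv q := Nat.Partition.ext <| by simp

theorem count_mul_le {n : ℕ} (l : Nat.Partition n) (d : ℕ) : l.parts.count d * d ≤ n := by
  have h1 : l.parts - Multiset.replicate (l.parts.count d) d +
      Multiset.replicate (l.parts.count d) d = l.parts :=
    Multiset.sub_add_cancel (Multiset.le_count_iff_replicate_le.1 le_rfl)
  have h2 := congrArg Multiset.sum h1
  rw [Multiset.sum_add, Multiset.sum_replicate, l.parts_sum, smul_eq_mul] at h2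
  omega

theorem sum_count {n : ℕ} (l : Nat.Partition n) :
    ∑ d ∈ Icc 1 n, l.parts.count d * d = n := by
  conv_rhs => rw [← l.parts_sum, Finset.sum_multiset_count]
  simp only [smul_eq_mul]
  refine (Finset.sum_subset ?_ ?_).symm
  · intro d hd
    rw [Multiset.mem_toFinset] at hd
    exact mem_Icc.2 ⟨l.parts_pos hd, l.le_of_mem_parts hd⟩
  · intro d _ hd
    rw [Multiset.mem_toFinset] at hd
    rw [Multiset.count_eq_zero_of_notMem hd, zero_mul]

theorem card_mult {n m d : ℕ} (hd : 1 ≤ d) (h : m * d ≤ n) :
    (univ.filter fun l : Nat.Partition n => m ≤ l.parts.count d).card = pp (n - m * d) := by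
  rw [← Fintype.card_subtype, Fintype.card_congr (multEquiv hd h)]
  rfl

theorem card_mult_zero {n m d : ℕ} (h : n < m * d) :
    (univ.filter fun l : Nat.Partition n => m ≤ l.parts.count d).card = 0 := by
  rw [card_eq_zero, filter_eq_empty_iff]
  intro l _ hl
  have h1 := count_mul_le l d
  have h2 := Nat.mul_le_mul_right d hl
  omega

/-- Task R. -/
theorem rec : S_REC := by
  intro n
  calc n * pp n = ∑ l : Nat.Partition n, n := by
        rw [sum_const, card_univ, smul_eq_mul, mul_comm]; rfl
    _ = ∑ l : Nat.Partition n, ∑ d ∈ Icc 1 n, l.parts.count d * d := by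
        refine sum_congr rfl fun l _ => (sum_count l).symm
    _ = ∑ l : Nat.Partition n, ∑ d ∈ Icc 1 n, ∑ m ∈ Icc 1 n,
          (if m ≤ l.parts.count d then d else 0) := by
        refine sum_congr rfl fun l _ => sum_congr rfl fun d hd => ?_
        rw [← sum_filter, sum_const, smul_eq_mul]
        congr 1
        have h1 : l.parts.count d ≤ n := by
          have h2 := count_mul_le l d
          have h3 := (mem_Icc.1 hd).1
          nlinarith
        have h2 : (Icc 1 n).filter (fun m => m ≤ l.parts.count d) = Icc 1 (l.parts.count d) := by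
          ext m
          simp only [mem_filter, mem_Icc]
          omega
        rw [h2, Nat.card_Icc]
        omega
    _ = ∑ m ∈ Icc 1 n, ∑ d ∈ Icc 1 n, ∑ l : Nat.Partition n,
          (if m ≤ l.parts.count d then d else 0) := by
        rw [sum_comm]
        calc _ = ∑ d ∈ Icc 1 n, ∑ m ∈ Icc 1 n, ∑ l : Nat.Partition n,
              (if m ≤ l.parts.count d then d else 0) :=
              sum_congr rfl fun d _ => sum_comm
          _ = _ := sum_comm
    _ = ∑ m ∈ Icc 1 n, ∑ d ∈ Icc 1 n, (if m * d ≤ n then d * pp (n - m * d) else 0) := by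
        refine sum_congr rfl fun m hm => sum_congr rfl fun d hd => ?_
        rw [← sum_filter, sum_const, smul_eq_mul, mul_comm]
        split_ifs with h
        · rw [card_mult (mem_Icc.1 hd).1 h]
        · rw [card_mult_zero (not_le.1 h), mul_zero]
    _ = _ := by
        rw [sum_filter, sum_product]

end Pool.Agent.W5h11.PZ
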