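import Pool.Agent.W5h11.PZ.G
import Pool.Agent.W5h11.PZ.Iface

/-! The sums `T j a`. -/

set_option autoImplicit false

namespace Pool.Agent.W5h11.PZ

open Finset Real

theorem tm_nonneg (j : ℕ) (a : ℝ) (x : ℕ × ℕ) : 0 ≤ tm j a x := by unfold tm; positivity

theorem tm_eq (j : ℕ) (a : ℝ) (i d : ℕ) :
    tm j a (i, d) = ((i : ℝ) + 1) ^ j * ((d : ℝ) ^ (j + 1) * exp (-(a * (i + 1) * d))) := by
  unfold tm ks
  push_cast
  rw [mul_pow, pow_succ]
  have : a * (((i : ℝ) + 1) * d) = a * (i + 1) * d := by ring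
  rw [this]
  ring

theorem row_summable (j : ℕ) {a : ℝ} (ha : 0 < a) (i : ℕ) : Summable fun d => tm j a (i, d) := by
  have h : 0 < a * ((i : ℝ) + 1) := by positivity
  simp_rw [tm_eq]
  exact (gs_summable (r := j + 1) (by omega) h).mul_left _

theorem row_tsum (j : ℕ) (a : ℝ) (i : ℕ) :
    ∑' d, tm j a (i, d) = ((i : ℝ) + 1) ^ j * gs (j + 1) (a * (i + 1)) := by
  simp_rw [tm_eq]
  rw [tsum_mul_left]
  rfl

theorem row_le (j : ℕ) {a : ℝ} (ha : 0 < a) (i : ℕ) :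
    ((i : ℝ) + 1) ^ j * gs (j + 1) (a * (i + 1)) ≤ cu (j + 1) / a ^ (j + 2) * (1 / ((i : ℝ) + 1) ^ 2) := by
  have h : 0 < a * ((i : ℝ) + 1) := by positivity
  have h1 := gs_le (r := j + 1) (by omega) h
  calc ((i : ℝ) + 1) ^ j * gs (j + 1) (a * (i + 1))
      ≤ ((i : ℝ) + 1) ^ j * (cu (j + 1) / (a * (i + 1)) ^ (j + 1 + 1)) := by gcongr
    _ = _ := by
        have h2 : ((i : ℝ) + 1) ≠ 0 := by positivity
        rw [show j + 1 + 1 = j + 2 by ring, mul_pow, pow_add ((i : ℝ) + 1) j 2]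
        field_simp

theorem sq_summable : Summable fun i : ℕ => 1 / ((i : ℝ) + 1) ^ 2 := by
  have h : Summable fun i : ℕ => 1 / (i : ℝ) ^ 2 := Real.summable_one_div_nat_pow.2 (by norm_num)
  have := (summable_nat_add_iff 1).2 h
  refine this.congr fun i => ?_
  push_cast; rfl

theorem five_summable : Summable fun i : ℕ => 1 / ((i : ℝ) + 1) ^ (5 / 4 : ℝ) := by
  have h : Summable fun i : ℕ => 1 / (i : ℝ) ^ (5 / 4 : ℝ) :=
    Real.summable_one_div_nat_rpow.2 (by norm_num)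
  have := (summable_nat_add_iff 1).2 h
  refine this.congr fun i => ?_
  push_cast; rfl

/-- `∑ 1 / i ^ 2` -/
noncomputable def Z : ℝ := ∑' i : ℕ, 1 / ((i : ℝ) + 1) ^ 2
/-- `∑ 1 / i ^ (5 / 4)` -/
noncomputable def W : ℝ := ∑' i : ℕ, 1 / ((i : ℝ) + 1) ^ (5 / 4 : ℝ)

theorem Z_nonneg : 0 ≤ Z := tsum_nonneg fun i => by positivity
theorem W_nonneg : 0 ≤ W := tsum_nonneg fun i => by positivity

theorem rows_summable (j : ℕ) {a : ℝ} (ha : 0 < a) :
    Summable fun i : ℕ => ((i : ℝ) + 1) ^ j * gs (j + 1) (a * (i + 1)) :=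
  Summable.of_nonneg_of_le (fun i => mul_nonneg (by positivity) (gs_nonneg _ _))
    (row_le j ha) (sq_summable.mul_left _)

theorem T_summable (j : ℕ) {a : ℝ} (ha : 0 < a) : Summable (tm j a) := by
  rw [summable_prod_of_nonneg (tm_nonneg j a)]
  refine ⟨row_summable j ha, ?_⟩
  simp_rw [row_tsum]
  exact rows_summable j ha

theorem T_rows (j : ℕ) {a : ℝ} (ha : 0 < a) :
    T j a = ∑' i : ℕ, ((i : ℝ) + 1) ^ j * gs (j + 1) (a * (i + 1)) := by
  unfold T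
  rw [(T_summable j ha).tsum_prod]
  simp_rw [row_tsum]

theorem T_le (j : ℕ) {a : ℝ} (ha : 0 < a) : T j a ≤ cu (j + 1) * Z / a ^ (j + 2) := by
  rw [T_rows j ha]
  refine ((rows_summable j ha).tsum_le_tsum (row_le j ha) (sq_summable.mul_left _)).trans ?_
  rw [tsum_mul_left]
  refine le_of_eq ?_
  unfold Z; ring

theorem T_ge (j : ℕ) {a : ℝ} (ha : 0 < a) :
    ((j + 1).factorial : ℝ) * exp (-((j + 1 : ℕ) * a)) / a ^ (j + 2) ≤ T j a := by
  rw [T_rows j ha]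
  have h := (rows_summable j ha).le_tsum 0 fun i _ => mul_nonneg (by positivity) (gs_nonneg _ _)
  have h1 := gs_lower1 (r := j + 1) (by omega) ha
  have h2 : (((0 : ℕ) : ℝ) + 1) ^ j * gs (j + 1) (a * ((0 : ℕ) + 1)) = gs (j + 1) a := by
    simp
  rw [h2] at h
  exact h1.trans h

theorem T_nonneg (j : ℕ) (a : ℝ) : 0 ≤ T j a := tsum_nonneg (tm_nonneg j a)

theorem T_pos (j : ℕ) {a : ℝ} (ha : 0 < a) : 0 < T j a :=
  lt_of_lt_of_le (by positivity) (T_ge j ha)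

theorem T_approx (j : ℕ) {a : ℝ} (ha : 0 < a) :
    |T j a - ((j + 1).factorial : ℝ) * Z / a ^ (j + 2)| ≤
      cg (j + 1) * W * a ^ (3 / 4 : ℝ) / a ^ (j + 2) := by
  rw [T_rows j ha]
  have h1 : ((j + 1).factorial : ℝ) * Z / a ^ (j + 2) =
      ∑' i : ℕ, ((j + 1).factorial : ℝ) / a ^ (j + 2) * (1 / ((i : ℝ) + 1) ^ 2) := by
    rw [tsum_mul_left]; unfold Z; ring
  rw [h1, ← (rows_summable j ha).tsum_sub (sq_summable.mul_left _)]
  have hrow : ∀ i : ℕ, |((i : ℝ) + 1) ^ j * gs (j + 1) (a * (i + 1)) -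
      ((j + 1).factorial : ℝ) / a ^ (j + 2) * (1 / ((i : ℝ) + 1) ^ 2)| ≤
      cg (j + 1) * a ^ (3 / 4 : ℝ) / a ^ (j + 2) * (1 / ((i : ℝ) + 1) ^ (5 / 4 : ℝ)) := by
    intro i
    have hi : (0 : ℝ) < (i : ℝ) + 1 := by positivity
    have h : 0 < a * ((i : ℝ) + 1) := by positivity
    have h2 := gs_approx (r := j + 1) (by omega) h
    have h3 : ((i : ℝ) + 1) ^ j * gs (j + 1) (a * (i + 1)) -
      ((j + 1).factorial : ℝ) / a ^ (j + 2) * (1 / ((i : ℝ) + 1) ^ 2) =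
      ((i : ℝ) + 1) ^ j * (gs (j + 1) (a * (i + 1)) -
        (j + 1).factorial / (a * (i + 1)) ^ (j + 1 + 1)) := by
      rw [show j + 1 + 1 = j + 2 by ring, mul_pow, pow_add ((i : ℝ) + 1) j 2]
      field_simp
    have h4 : ((i : ℝ) + 1) ^ (3 / 4 : ℝ) = ((i : ℝ) + 1) ^ 2 / ((i : ℝ) + 1) ^ (5 / 4 : ℝ) := by
      rw [← Real.rpow_natCast ((i : ℝ) + 1) 2, ← Real.rpow_sub hi]; norm_num
    have h5 : ((i : ℝ) + 1) ^ j * (cg (j + 1) * (a * (i + 1)) ^ (3 / 4 : ℝ) /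
        (a * (i + 1)) ^ (j + 1 + 1)) =
        cg (j + 1) * a ^ (3 / 4 : ℝ) / a ^ (j + 2) * (1 / ((i : ℝ) + 1) ^ (5 / 4 : ℝ)) := by
      rw [show j + 1 + 1 = j + 2 by ring, mul_pow, Real.mul_rpow ha.le hi.le, h4,
        pow_add ((i : ℝ) + 1) j 2]
      have h6 : ((i : ℝ) + 1) ^ (5 / 4 : ℝ) ≠ 0 := by positivity
      field_simp
    rw [h3, abs_mul, abs_of_nonneg (by positivity : (0 : ℝ) ≤ ((i : ℝ) + 1) ^ j), ← h5]
    gcongr
  have hs : Summable fun i : ℕ => cg (j + 1) * a ^ (3 / 4 : ℝ) / a ^ (j + 2) *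
      (1 / ((i : ℝ) + 1) ^ (5 / 4 : ℝ)) := five_summable.mul_left _
  have h6 := tsum_of_norm_bounded hs.hasSum (f := fun i : ℕ => ((i : ℝ) + 1) ^ j *
    gs (j + 1) (a * (i + 1)) - ((j + 1).factorial : ℝ) / a ^ (j + 2) *
      (1 / ((i : ℝ) + 1) ^ 2)) (fun i => by rw [Real.norm_eq_abs]; exact hrow i)
  rw [Real.norm_eq_abs] at h6
  refine h6.trans (le_of_eq ?_)
  rw [tsum_mul_left]
  unfold W; ring

theorem T_anti (j : ℕ) {a b : ℝ} (ha : 0 < a) (hab : a ≤ b) : T j b ≤ T j a := by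
  refine (T_summable j (ha.trans_le hab)).tsum_le_tsum (fun x => ?_) (T_summable j ha)
  unfold tm
  gcongr

theorem T_tangent (j : ℕ) {a b : ℝ} (ha : 0 < a) (hb : 0 < b) :
    T j a - T (j + 1) a * (b - a) ≤ T j b := by
  unfold T
  rw [← tsum_mul_right, ← (T_summable j ha).tsum_sub ((T_summable (j + 1) ha).mul_right _)]
  refine Summable.tsum_le_tsum (fun x => ?_)
    ((T_summable j ha).sub ((T_summable (j + 1) ha).mul_right _)) (T_summable j hb)
  unfold tm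
  have h1 : exp (-(b * ks x)) = exp (-(a * ks x)) * exp (-((b - a) * ks x)) := by
    rw [← Real.exp_add]; congr 1; ring
  have h2 := Real.add_one_le_exp (-((b - a) * ks x))
  have h3 : 0 ≤ (x.2 : ℝ) * (ks x : ℝ) ^ j * exp (-(a * ks x)) := by positivity
  have h4 := mul_le_mul_of_nonneg_left h2 h3
  rw [h1]
  calc (x.2 : ℝ) * (ks x : ℝ) ^ j * exp (-(a * ks x)) -
        (x.2 : ℝ) * (ks x : ℝ) ^ (j + 1) * exp (-(a * ks x)) * (b - a)
      = (x.2 : ℝ) * (ks x : ℝ) ^ j * exp (-(a * ks x)) * (-((b - a) * ks x) + 1) := by ring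
    _ ≤ _ := h4
    _ = _ := by ring

theorem T_tail (j n : ℕ) {a : ℝ} (ha : 0 < a) :
    ∑' x : ℕ × ℕ, (if n < 2 * ks x then tm j a x else 0) ≤ exp (-(n * a / 4)) * T j (a / 2) := by
  have hs := T_summable j (a := a / 2) (by positivity)
  unfold T
  rw [← tsum_mul_left]
  refine Summable.tsum_le_tsum (fun x => ?_) ?_ (hs.mul_left _)
  · split_ifs with h
    · unfold tm
      have h1 : exp (-(a * ks x)) = exp (-(a / 2 * ks x)) * exp (-(a / 2 * ks x)) := by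
        rw [← Real.exp_add]; congr 1; ring
      have h2 : exp (-(a / 2 * ks x)) ≤ exp (-(n * a / 4)) := by
        apply Real.exp_le_exp.2
        have : (n : ℝ) ≤ 2 * ks x := by exact_mod_cast h.le
        nlinarith
      rw [h1]
      calc (x.2 : ℝ) * (ks x : ℝ) ^ j * (exp (-(a / 2 * ks x)) * exp (-(a / 2 * ks x)))
          ≤ (x.2 : ℝ) * (ks x : ℝ) ^ j * (exp (-(a / 2 * ks x)) * exp (-(n * a / 4))) := by gcongr
        _ = _ := by ring
    · exact mul_nonneg (exp_pos _).le (tm_nonneg _ _ _)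
  · refine Summable.of_nonneg_of_le (fun x => ?_) (fun x => ?_) (T_summable j ha)
    · split_ifs
      · exact tm_nonneg _ _ _
      · exact le_rfl
    · split_ifs
      · exact le_rfl
      · exact tm_nonneg _ _ _

end Pool.Agent.W5h11.PZ
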