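import Pool.Agent.W5h11.PZ.Iface

/-! Task A4u: the super-solution. -/

set_option autoImplicit false

namespace Pool.Agent.W5h11.PZ

open Finset Real

namespace Up

variable {α : ℕ → ℝ} {C : ℝ}

theorem F_succ (α : ℕ → ℝ) (m : ℕ) : F α (m + 1) = F α m + α (m + 1) := by
  unfold F
  rw [sum_range_succ]

theorem F_lower (h : Good α C) {n : ℕ} : ∀ k : ℕ, k ≤ n →
    (k : ℝ) * α n + k * (k - 1) / (2 * T 1 (α n)) ≤ F α n - F α (n - k) := by
  intro k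
  induction k with
  | zero => intro _; simp
  | succ k ih =>
    intro hk
    have h1 := ih (by omega)
    have h2 := h.step_lo n k (by omega)
    obtain ⟨m, hm⟩ : ∃ m, n - k = m + 1 := ⟨n - k - 1, by omega⟩
    have hm2 : n - (k + 1) = m := by omega
    rw [hm, F_succ] at h1
    rw [hm] at h2
    rw [hm2]
    have h3 : ((k + 1 : ℕ) : ℝ) * α n + ((k + 1 : ℕ) : ℝ) * (((k + 1 : ℕ) : ℝ) - 1) / (2 * T 1 (α n))
        = ((k : ℝ) * α n + k * (k - 1) / (2 * T 1 (α n))) + (α n + k / T 1 (α n)) := by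
      have h4 : (k : ℝ) / T 1 (α n) = 2 * k / (2 * T 1 (α n)) := by
        rw [mul_div_mul_left _ _ (two_ne_zero)]
      rw [h4]
      push_cast
      ring
    rw [h3]
    linarith

theorem rpow_a {s : ℝ} (hs0 : 0 ≤ s) (hs : s ≤ 1 / 2) :
    (1 - s) ^ (-(3 / 4) : ℝ) ≤ 1 + 3 / 4 * s + 3 / 2 * s ^ 2 := by
  have h0 : 0 < 1 - s := by linarith
  rw [Real.rpow_neg h0.le, ← Real.inv_rpow h0.le]
  have h1 : (1 - s)⁻¹ = 1 + s / (1 - s) := by
    field_simp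
    ring
  rw [h1]
  have h2 := rpow_one_add_le_one_add_mul_self (s := s / (1 - s)) (p := 3 / 4)
    (by have : 0 ≤ s / (1 - s) := by positivity
        linarith) (by norm_num) (by norm_num)
  refine h2.trans ?_
  have h3 : s / (1 - s) ≤ s + 2 * s ^ 2 := by
    rw [div_le_iff₀ h0]
    nlinarith [mul_nonneg hs0 (sub_nonneg.2 hs), mul_nonneg (mul_nonneg hs0 hs0) (sub_nonneg.2 hs)]
  linarith

theorem rpow_b {s : ℝ} (hs0 : 0 ≤ s) (hs : s ≤ 1 / 2) : 1 + s / 4 ≤ (1 - s) ^ (-(1 / 4) : ℝ) := by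
  have h0 : 0 < 1 - s := by linarith
  have h1 := rpow_one_add_le_one_add_mul_self (s := -s) (p := 1 / 4)
    (by linarith) (by norm_num) (by norm_num)
  rw [← sub_eq_add_neg] at h1
  rw [Real.rpow_neg h0.le]
  have h2 : 0 < (1 - s) ^ (1 / 4 : ℝ) := Real.rpow_pos_of_pos h0 _
  rw [le_inv_comm₀ (by linarith) h2]
  refine h1.trans ?_
  rw [le_inv_comm₀ (by linarith) (by linarith), inv_eq_one_div, le_div_iff₀ (by linarith)]
  nlinarith [mul_nonneg hs0 hs0]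

theorem exp_c {D : ℝ} (hD : 0 ≤ D) : exp (-D) ≤ 1 - D + D ^ 2 / 2 := by
  have h1 := quadratic_le_exp_of_nonneg hD
  have h2 : 0 < 1 + D + D ^ 2 / 2 := by positivity
  rw [Real.exp_neg]
  refine (inv_anti₀ h2 h1).trans ?_
  rw [inv_eq_one_div, div_le_iff₀ h2]
  nlinarith [sq_nonneg (D ^ 2)]

theorem key_ineq {s D E ν f : ℝ} (hs0 : 0 ≤ s) (hs : s ≤ 1 / 2) (hD : 0 ≤ D) (hE : D ^ 2 ≤ E)
    (hν0 : 0 ≤ ν) (hf0 : 0 ≤ f) (hf : f ≤ 1 - ν / 2 - ν * s / 8) :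
    exp (-D) * (1 - s) ^ (-(3 / 4) : ℝ) * f
      ≤ (1 - ν / 2) * (1 + 3 / 4 * s - D + E + 2 * s ^ 2) - ν * s / 16 := by
  have h1 : exp (-D) * (1 - s) ^ (-(3 / 4) : ℝ) ≤ 1 + 3 / 4 * s - D + E + 2 * s ^ 2 := by
    have h2 : exp (-D) * (1 - s) ^ (-(3 / 4) : ℝ)
        ≤ (1 - D + D ^ 2 / 2) * (1 + 3 / 4 * s + 3 / 2 * s ^ 2) :=
      mul_le_mul (exp_c hD) (rpow_a hs0 hs) (Real.rpow_nonneg (by linarith) _)
        ((Real.exp_pos _).le.trans (exp_c hD))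
    refine h2.trans ?_
    have h3 : 0 ≤ D ^ 2 * (1 / 2 - s) := mul_nonneg (sq_nonneg D) (by linarith)
    have h4 : 0 ≤ D ^ 2 * s * (1 / 2 - s) := mul_nonneg (mul_nonneg (sq_nonneg D) hs0) (by linarith)
    have h5 : 0 ≤ s * D := mul_nonneg hs0 hD
    have h6 : 0 ≤ s ^ 2 * D := mul_nonneg (sq_nonneg s) hD
    nlinarith [sq_nonneg s, sq_nonneg D]
  have hQ : 3 / 4 ≤ 1 + 3 / 4 * s - D + E + 2 * s ^ 2 := by
    nlinarith [sq_nonneg s, sq_nonneg (D - 1 / 2)]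
  calc exp (-D) * (1 - s) ^ (-(3 / 4) : ℝ) * f
      ≤ (1 + 3 / 4 * s - D + E + 2 * s ^ 2) * f := mul_le_mul_of_nonneg_right h1 hf0
    _ ≤ (1 + 3 / 4 * s - D + E + 2 * s ^ 2) * (1 - ν / 2 - ν * s / 8) :=
        mul_le_mul_of_nonneg_left hf (by linarith)
    _ ≤ _ := by
        have h2 : 0 ≤ ν * s := mul_nonneg hν0 hs0
        nlinarith [mul_nonneg h2 (sub_nonneg.2 hQ)]

theorem U_le2 (h : Good α C) {n k : ℕ} (hk : k ≤ n) :
    U α (n - k) ≤ exp (F α n) * exp (-(α n * k)) := by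
  have hT : 0 ≤ T 1 (α n) := by
    unfold T tm
    exact tsum_nonneg fun x => by positivity
  have h1 := F_lower h k hk
  have h2 : 0 ≤ (k : ℝ) * (k - 1) / (2 * T 1 (α n)) := by
    apply div_nonneg _ (by linarith)
    rcases Nat.eq_zero_or_pos k with rfl | hk0
    · simp
    · have : (1 : ℝ) ≤ k := by exact_mod_cast hk0
      exact mul_nonneg (by linarith) (by linarith)
  have h3 : exp (F α (n - k)) ≤ exp (F α n) * exp (-(α n * k)) := by
    rw [← Real.exp_add]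
    apply Real.exp_le_exp.2
    linarith
  refine le_trans ?_ h3
  unfold U
  split_ifs with h0
  · rw [h0]
    unfold F
    simp
  · have hm : (1 : ℝ) ≤ ((n - k : ℕ) : ℝ) := by
      exact_mod_cast Nat.one_le_iff_ne_zero.2 h0
    have h4 : ((n - k : ℕ) : ℝ) ^ (-(3 / 4) : ℝ) ≤ 1 :=
      Real.rpow_le_one_of_one_le_of_nonpos hm (by norm_num)
    have h5 : 0 ≤ ((n - k : ℕ) : ℝ) ^ (-(1 / 4) : ℝ) := Real.rpow_nonneg (by linarith) _
    have h6 : 0 ≤ ((n - k : ℕ) : ℝ) ^ (-(3 / 4) : ℝ) := Real.rpow_nonneg (by linarith) _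
    have h7 : ((n - k : ℕ) : ℝ) ^ (-(1 / 4) : ℝ) ≤ 1 :=
      Real.rpow_le_one_of_one_le_of_nonpos hm (by norm_num)
    have h8 : ((n - k : ℕ) : ℝ) ^ (-(3 / 4) : ℝ) * (1 - ((n - k : ℕ) : ℝ) ^ (-(1 / 4) : ℝ) / 2) ≤ 1 := by
      nlinarith
    rw [mul_assoc]
    exact mul_le_of_le_one_right (Real.exp_pos _).le h8

theorem U_le1 (h : Good α C) {n k : ℕ} (hn : 1 ≤ n) (hk : 2 * k ≤ n) :
    U α (n - k) ≤ exp (F α n) * (n : ℝ) ^ (-(3 / 4) : ℝ) * (exp (-(α n * k)) *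
      ((1 - (n : ℝ) ^ (-(1 / 4) : ℝ) / 2) * (1 + 3 / 4 * (k / n) - k * (k - 1) / (2 * T 1 (α n))
        + (k : ℝ) ^ 4 / (4 * T 1 (α n) ^ 2) + 2 * (k / n) ^ 2)
        - (n : ℝ) ^ (-(1 / 4) : ℝ) * (k / n) / 16)) := by
  have hT : 0 ≤ T 1 (α n) := by
    unfold T tm
    exact tsum_nonneg fun x => by positivity
  have hN : (1 : ℝ) ≤ n := by exact_mod_cast hn
  have hN0 : (0 : ℝ) < n := by linarith
  have h1 := F_lower h (n := n) k (by omega)
  set s : ℝ := (k : ℝ) / n with hs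
  set D : ℝ := (k : ℝ) * (k - 1) / (2 * T 1 (α n)) with hD
  set E : ℝ := (k : ℝ) ^ 4 / (4 * T 1 (α n) ^ 2) with hE
  set ν : ℝ := (n : ℝ) ^ (-(1 / 4) : ℝ) with hν
  have hk1 : (0 : ℝ) ≤ (k : ℝ) * (k - 1) := by
    rcases Nat.eq_zero_or_pos k with h0 | hk0
    · simp [h0]
    · have : (1 : ℝ) ≤ k := by exact_mod_cast hk0
      exact mul_nonneg (by linarith) (by linarith)
  have hk2 : (k : ℝ) * (k - 1) ≤ (k : ℝ) ^ 2 := by nlinarith [Nat.cast_nonneg (α := ℝ) k]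
  have hs0 : 0 ≤ s := by positivity
  have hs1 : s ≤ 1 / 2 := by
    rw [hs, div_le_iff₀ hN0]
    have : (2 : ℝ) * k ≤ n := by exact_mod_cast hk
    linarith
  have hD0 : 0 ≤ D := div_nonneg hk1 (by linarith)
  have hDE : D ^ 2 ≤ E := by
    rw [hD, hE, div_pow]
    have h2 : (2 * T 1 (α n)) ^ 2 = 4 * T 1 (α n) ^ 2 := by ring
    rw [h2]
    apply div_le_div_of_nonneg_right _ (by positivity)
    have h3 : (k : ℝ) ^ 4 = ((k : ℝ) ^ 2) ^ 2 := by ring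
    rw [h3]
    exact pow_le_pow_left₀ hk1 hk2 2
  have hν0 : 0 ≤ ν := Real.rpow_nonneg hN0.le _
  have hm0 : n - k ≠ 0 := by omega
  have hm1 : (1 : ℝ) ≤ ((n - k : ℕ) : ℝ) := by exact_mod_cast Nat.one_le_iff_ne_zero.2 hm0
  have hm : ((n - k : ℕ) : ℝ) = n * (1 - s) := by
    rw [Nat.cast_sub (by omega), hs]
    field_simp
  unfold U
  rw [if_neg hm0]
  have hF : exp (F α (n - k)) ≤ exp (F α n) * exp (-(α n * k)) * exp (-D) := by
    rw [← Real.exp_add, ← Real.exp_add]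
    apply Real.exp_le_exp.2
    linarith
  have h7 : ((n - k : ℕ) : ℝ) ^ (-(1 / 4) : ℝ) ≤ 1 :=
    Real.rpow_le_one_of_one_le_of_nonpos hm1 (by norm_num)
  have hf0 : 0 ≤ 1 - ((n - k : ℕ) : ℝ) ^ (-(1 / 4) : ℝ) / 2 := by linarith
  have hf : 1 - ((n - k : ℕ) : ℝ) ^ (-(1 / 4) : ℝ) / 2 ≤ 1 - ν / 2 - ν * s / 8 := by
    rw [hm, Real.mul_rpow hN0.le (by linarith)]
    have := mul_le_mul_of_nonneg_left (rpow_b hs0 hs1) hν0
    rw [← hν]
    linarith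
  have hg := key_ineq hs0 hs1 hD0 hDE hν0 hf0 hf
  have hm3 : ((n - k : ℕ) : ℝ) ^ (-(3 / 4) : ℝ) = (n : ℝ) ^ (-(3 / 4) : ℝ) * (1 - s) ^ (-(3 / 4) : ℝ) := by
    rw [hm, Real.mul_rpow hN0.le (by linarith)]
  set f : ℝ := 1 - ((n - k : ℕ) : ℝ) ^ (-(1 / 4) : ℝ) / 2 with hfd
  rw [hm3]
  have hn3 : 0 ≤ (n : ℝ) ^ (-(3 / 4) : ℝ) := Real.rpow_nonneg hN0.le _
  have hs3 : 0 ≤ (1 - s) ^ (-(3 / 4) : ℝ) := Real.rpow_nonneg (by linarith) _
  calc exp (F α (n - k)) * ((n : ℝ) ^ (-(3 / 4) : ℝ) * (1 - s) ^ (-(3 / 4) : ℝ)) * f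
      ≤ (exp (F α n) * exp (-(α n * k)) * exp (-D)) *
        ((n : ℝ) ^ (-(3 / 4) : ℝ) * (1 - s) ^ (-(3 / 4) : ℝ)) * f :=
        mul_le_mul_of_nonneg_right (mul_le_mul_of_nonneg_right hF (mul_nonneg hn3 hs3)) hf0
    _ = (exp (F α n) * (n : ℝ) ^ (-(3 / 4) : ℝ) * exp (-(α n * k))) *
        (exp (-D) * (1 - s) ^ (-(3 / 4) : ℝ) * f) := by ring
    _ ≤ (exp (F α n) * (n : ℝ) ^ (-(3 / 4) : ℝ) * exp (-(α n * k))) *
        ((1 - ν / 2) * (1 + 3 / 4 * s - D + E + 2 * s ^ 2) - ν * s / 16) :=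
        mul_le_mul_of_nonneg_left hg (by positivity)
    _ = _ := by ring

/-- the bracket is nonnegative -/
theorem br_nonneg {T1 N k : ℝ} (hk : 0 ≤ k * (k - 1)) (hk0 : 0 ≤ k) (hT : 0 < T1) (hN : 0 < N) :
    0 ≤ 1 + 3 / 4 * (k / N) - k * (k - 1) / (2 * T1) + k ^ 4 / (4 * T1 ^ 2) + 2 * (k / N) ^ 2 := by
  have hk2 : k * (k - 1) ≤ k ^ 2 := by nlinarith
  have hDE : (k * (k - 1) / (2 * T1)) ^ 2 ≤ k ^ 4 / (4 * T1 ^ 2) := by
    rw [div_pow]
    have h2 : (2 * T1) ^ 2 = 4 * T1 ^ 2 := by ring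
    rw [h2]
    apply div_le_div_of_nonneg_right _ (by positivity)
    have h3 : k ^ 4 = (k ^ 2) ^ 2 := by ring
    rw [h3]
    exact pow_le_pow_left₀ hk hk2 2
  have hs : 0 ≤ k / N := by positivity
  nlinarith [sq_nonneg (k / N), sq_nonneg (k * (k - 1) / (2 * T1) - 1 / 2)]

theorem tm_eq (j : ℕ) (a : ℝ) (x : ℕ × ℕ) :
    tm j a x = (x.2 : ℝ) * exp (-(a * ks x)) * (ks x : ℝ) ^ j := by
  unfold tm
  ring

/-- the value of the sum is small enough -/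
theorem total {C N y ν T1 T2 T4 t0 t1 : ℝ} (hC : 1 ≤ C) (hy1 : 1 ≤ y) (hN : N = y ^ 8)
    (hν : ν * y ^ 2 = 1) (hT1 : y ^ 12 / C ≤ T1) (hT2 : T2 ≤ C * N ^ 2) (hT4 : T4 ≤ C * N ^ 3)
    (hbal : 3 / 4 * T1 / N - T2 / (2 * T1) ≤ C * y) (ht0 : t0 ≤ C / N) (ht1 : t1 ≤ C / N)
    (hY : 16 * C * (6 * C + 1 + C ^ 3) ≤ y) :
    (1 - ν / 2) * (N + 3 / (4 * N) * T1 - (T2 - T1) / (2 * T1) + T4 / (4 * T1 ^ 2) + 2 / N ^ 2 * T2)
      - ν / (16 * N) * (T1 - t1) + y ^ 6 * t0 ≤ (1 - ν / 2) * N := by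
  have hy0 : 0 < y := by linarith
  have hC0 : 0 < C := by linarith
  have hN0 : 0 < N := by rw [hN]; positivity
  have hN1 : 1 ≤ N := by rw [hN]; exact one_le_pow₀ hy1
  have hT10 : 0 < T1 := lt_of_lt_of_le (by positivity) hT1
  have hy2 : 1 ≤ y ^ 2 := one_le_pow₀ hy1
  have hν0 : 0 < ν := by
    by_contra h
    push Not at h
    nlinarith
  have hν1 : ν ≤ 1 := by nlinarith
  have e1 : 3 / (4 * N) * T1 = 3 / 4 * T1 / N := by
    field_simp
  have e2 : (T2 - T1) / (2 * T1) = T2 / (2 * T1) - 1 / 2 := by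
    field_simp
  have b4 : T4 / (4 * T1 ^ 2) ≤ C ^ 3 / 4 := by
    rw [div_le_div_iff₀ (by positivity) (by norm_num)]
    have h1 : (y ^ 12 / C) ^ 2 ≤ T1 ^ 2 := pow_le_pow_left₀ (by positivity) hT1 2
    have h2 : N ^ 3 ≤ C ^ 2 * T1 ^ 2 := by
      calc N ^ 3 = C ^ 2 * (y ^ 12 / C) ^ 2 := by rw [hN]; field_simp
        _ ≤ C ^ 2 * T1 ^ 2 := by gcongr
    have h3 : T4 ≤ C * (C ^ 2 * T1 ^ 2) := hT4.trans (by gcongr)
    nlinarith
  have b2 : 2 / N ^ 2 * T2 ≤ 2 * C := by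
    calc 2 / N ^ 2 * T2 ≤ 2 / N ^ 2 * (C * N ^ 2) := by gcongr
      _ = 2 * C := by field_simp
  have g1 : y ^ 2 / (16 * C) ≤ ν / (16 * N) * T1 := by
    calc y ^ 2 / (16 * C) = ν / (16 * N) * (y ^ 12 / C) := by
          have h1 : ν = 1 / y ^ 2 := by
            rw [eq_div_iff (by positivity)]
            exact hν
          rw [h1, hN]
          field_simp
      _ ≤ ν / (16 * N) * T1 := by gcongr
  have htC : C / N ≤ C := div_le_self hC0.le hN1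
  have g2 : ν / (16 * N) * t1 ≤ C := by
    have h1 : 0 ≤ ν / (16 * N) := by positivity
    have h2 : ν / (16 * N) ≤ 1 := by
      rw [div_le_one (by positivity)]
      linarith
    calc ν / (16 * N) * t1 ≤ ν / (16 * N) * C := by
          apply mul_le_mul_of_nonneg_left _ h1
          linarith
      _ ≤ 1 * C := by gcongr
      _ = C := one_mul C
  have g0 : y ^ 6 * t0 ≤ C := by
    calc y ^ 6 * t0 ≤ y ^ 6 * (C / N) := by gcongr
      _ = C / y ^ 2 := by rw [hN]; field_simp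
      _ ≤ C := div_le_self hC0.le hy2
  set X : ℝ := 3 / 4 * T1 / N - T2 / (2 * T1) + 1 / 2 + T4 / (4 * T1 ^ 2) + 2 / N ^ 2 * T2 with hX
  have hXle : X ≤ C * y + 1 / 2 + C ^ 3 / 4 + 2 * C := by
    rw [hX]
    linarith
  have hb0 : 0 ≤ C * y + 1 / 2 + C ^ 3 / 4 + 2 * C := by positivity
  have hX2 : (1 - ν / 2) * X ≤ C * y + 1 / 2 + C ^ 3 / 4 + 2 * C := by
    calc (1 - ν / 2) * X ≤ (1 - ν / 2) * (C * y + 1 / 2 + C ^ 3 / 4 + 2 * C) := by
          apply mul_le_mul_of_nonneg_left hXle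
          linarith
      _ ≤ 1 * (C * y + 1 / 2 + C ^ 3 / 4 + 2 * C) := by
          apply mul_le_mul_of_nonneg_right _ hb0
          linarith
      _ = _ := one_mul _
  have e3 : (1 - ν / 2) * (N + 3 / (4 * N) * T1 - (T2 - T1) / (2 * T1) + T4 / (4 * T1 ^ 2)
      + 2 / N ^ 2 * T2) = (1 - ν / 2) * N + (1 - ν / 2) * X := by
    rw [e1, e2, hX]
    ring
  have gain : C * y + 1 / 2 + C ^ 3 / 4 + 2 * C + C + C ≤ y ^ 2 / (16 * C) := by
    rw [le_div_iff₀ (by positivity)]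
    have h1 : C * y + 1 / 2 + C ^ 3 / 4 + 2 * C + C + C ≤ (6 * C + 1 + C ^ 3) * y := by
      have h2 : 0 ≤ C ^ 3 := by positivity
      nlinarith [mul_le_mul_of_nonneg_left hy1 hC0.le, mul_le_mul_of_nonneg_left hy1 h2]
    calc (C * y + 1 / 2 + C ^ 3 / 4 + 2 * C + C + C) * (16 * C)
        ≤ ((6 * C + 1 + C ^ 3) * y) * (16 * C) := by gcongr
      _ = (16 * C * (6 * C + 1 + C ^ 3)) * y := by ring
      _ ≤ y * y := by gcongr
      _ = y ^ 2 := by ring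
  rw [e3, mul_sub]
  linarith

end Up

open Up in
theorem up {α : ℕ → ℝ} {C : ℝ} (h : Good α C) : S_UP α := by
  have hC := h.C1
  have hC0 : 0 < C := by linarith
  set Y : ℝ := 16 * C * (6 * C + 1 + C ^ 3) with hY
  have hY0 : 0 ≤ Y := by positivity
  refine ⟨max 1 ⌈Y ^ 8⌉₊, ?_⟩
  intro n hn
  have hn1 : 1 ≤ n := (le_max_left _ _).trans hn
  have hnY : Y ^ 8 ≤ n := (Nat.le_ceil _).trans (by exact_mod_cast (le_max_right _ _).trans hn)
  have hN1 : (1 : ℝ) ≤ n := by exact_mod_cast hn1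
  have hN0 : (0 : ℝ) < n := by linarith
  set N : ℝ := (n : ℝ) with hN
  set y : ℝ := N ^ (1 / 8 : ℝ) with hy
  have hy1 : 1 ≤ y := Real.one_le_rpow hN1 (by norm_num)
  have hy0 : 0 < y := by linarith
  have hyN : N = y ^ 8 := by
    rw [hy, ← Real.rpow_natCast, ← Real.rpow_mul hN0.le]
    norm_num
  have hyY : Y ≤ y := by
    have h1 : (Y ^ 8) ^ (1 / 8 : ℝ) ≤ y := Real.rpow_le_rpow (by positivity) hnY (by norm_num)
    rw [← Real.rpow_natCast, ← Real.rpow_mul hY0] at h1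
    norm_num at h1
    exact h1
  set ν : ℝ := N ^ (-(1 / 4) : ℝ) with hν
  have hνy : ν * y ^ 2 = 1 := by
    rw [hν, hy, ← Real.rpow_natCast, ← Real.rpow_mul hN0.le, ← Real.rpow_add hN0]
    norm_num
  have hy6 : N ^ (3 / 4 : ℝ) = y ^ 6 := by
    rw [hy, ← Real.rpow_natCast, ← Real.rpow_mul hN0.le]
    norm_num
  have hsq : √N = y ^ 4 := by
    rw [hyN, show y ^ 8 = (y ^ 4) ^ 2 by ring]
    exact Real.sqrt_sq (by positivity)
  have hν0 : 0 ≤ ν := Real.rpow_nonneg hN0.le _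
  have hν1 : ν ≤ 1 := Real.rpow_le_one_of_one_le_of_nonpos hN1 (by norm_num)
  set a : ℝ := α n with ha
  have ha0 : 0 < a := h.pos n hn1
  have hT10 : 0 < T 1 a := lt_of_lt_of_le (by positivity) (h.T1lo n hn1)
  -- the tails
  have htm : ∀ j x, 0 ≤ tm j a x := by
    intro j x
    unfold tm
    positivity
  have hl : ∀ j, Summable fun x : ℕ × ℕ => (if n < 2 * ks x then tm j a x else 0) := by
    intro j
    refine Summable.of_nonneg_of_le ?_ ?_ (h.sm j a ha0)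
    · intro x
      split_ifs
      · exact htm j x
      · exact le_rfl
    · intro x
      split_ifs
      · exact le_rfl
      · exact htm j x
  have s0 := (h.sm 0 a ha0).hasSum
  have s1 := (h.sm 1 a ha0).hasSum
  have s2 := (h.sm 2 a ha0).hasSum
  have s4 := (h.sm 4 a ha0).hasSum
  have l0 := (hl 0).hasSum
  have l1 := (hl 1).hasSum
  have H := ((((((s0.add (s1.mul_left (3 / (4 * N)))).sub ((s2.sub s1).div_const (2 * T 1 a))).add
    (s4.div_const (4 * T 1 a ^ 2))).add (s2.mul_left (2 / N ^ 2))).mul_left (1 - ν / 2)).sub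
    ((s1.sub l1).mul_left (ν / (16 * N)))).add (l0.mul_left (y ^ 6))
  -- the bracket
  have hbr : ∀ x : ℕ × ℕ, tm 0 a x + 3 / (4 * N) * tm 1 a x - (tm 2 a x - tm 1 a x) / (2 * T 1 a)
      + tm 4 a x / (4 * T 1 a ^ 2) + 2 / N ^ 2 * tm 2 a x
      = (x.2 : ℝ) * exp (-(a * ks x)) * (1 + 3 / 4 * (ks x / N) - ks x * (ks x - 1) / (2 * T 1 a)
        + (ks x : ℝ) ^ 4 / (4 * T 1 a ^ 2) + 2 * (ks x / N) ^ 2) := by
    intro x
    rw [tm_eq, tm_eq, tm_eq, tm_eq]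
    field_simp
  have hkk : ∀ x : ℕ × ℕ, (0 : ℝ) ≤ (ks x : ℝ) * (ks x - 1) := by
    intro x
    rcases Nat.eq_zero_or_pos (ks x) with h0 | hk0
    · simp [h0]
    · have : (1 : ℝ) ≤ ks x := by exact_mod_cast hk0
      exact mul_nonneg (by linarith) (by linarith)
  have hbr0 : ∀ x : ℕ × ℕ, 0 ≤ tm 0 a x + 3 / (4 * N) * tm 1 a x
      - (tm 2 a x - tm 1 a x) / (2 * T 1 a) + tm 4 a x / (4 * T 1 a ^ 2) + 2 / N ^ 2 * tm 2 a x := by
    intro x
    rw [hbr]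
    exact mul_nonneg (by positivity) (br_nonneg (hkk x) (by positivity) hT10 hN0)
  have hbig : ∀ x : ℕ × ℕ, n < 2 * ks x → y ^ 6 * tm 0 a x ≤
      (1 - ν / 2) * (tm 0 a x + 3 / (4 * N) * tm 1 a x - (tm 2 a x - tm 1 a x) / (2 * T 1 a)
        + tm 4 a x / (4 * T 1 a ^ 2) + 2 / N ^ 2 * tm 2 a x)
        - ν / (16 * N) * (tm 1 a x - if n < 2 * ks x then tm 1 a x else 0)
        + y ^ 6 * (if n < 2 * ks x then tm 0 a x else 0) := by
    intro x hx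
    rw [if_pos hx, if_pos hx, sub_self, mul_zero, sub_zero]
    have := mul_nonneg (show 0 ≤ 1 - ν / 2 by linarith) (hbr0 x)
    linarith
  have hFn : 0 < exp (F α n) * N ^ (-(3 / 4) : ℝ) :=
    mul_pos (Real.exp_pos _) (Real.rpow_pos_of_pos hN0 _)
  have hN34 : N ^ (-(3 / 4) : ℝ) * y ^ 6 = 1 := by
    rw [← hy6, ← Real.rpow_add hN0]
    norm_num
  -- termwise
  have hterm : ∀ x ∈ Ix n, (x.2 : ℝ) * U α (n - ks x) ≤ exp (F α n) * N ^ (-(3 / 4) : ℝ) *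
      ((1 - ν / 2) * (tm 0 a x + 3 / (4 * N) * tm 1 a x - (tm 2 a x - tm 1 a x) / (2 * T 1 a)
        + tm 4 a x / (4 * T 1 a ^ 2) + 2 / N ^ 2 * tm 2 a x)
        - ν / (16 * N) * (tm 1 a x - if n < 2 * ks x then tm 1 a x else 0)
        + y ^ 6 * (if n < 2 * ks x then tm 0 a x else 0)) := by
    intro x hx
    have hk : ks x ≤ n := (mem_filter.1 hx).2
    by_cases h2 : n < 2 * ks x
    · refine le_trans ?_ (mul_le_mul_of_nonneg_left (hbig x h2) hFn.le)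
      have h3 := mul_le_mul_of_nonneg_left (U_le2 h hk) (Nat.cast_nonneg (α := ℝ) x.2)
      refine h3.trans (le_of_eq ?_)
      rw [tm_eq, pow_zero, mul_one]
      calc (x.2 : ℝ) * (exp (F α n) * exp (-(a * ks x)))
          = exp (F α n) * 1 * (x.2 * exp (-(a * ks x))) := by ring
        _ = exp (F α n) * (N ^ (-(3 / 4) : ℝ) * y ^ 6) * (x.2 * exp (-(a * ks x))) := by rw [hN34]
        _ = _ := by ring
    · rw [if_neg h2, if_neg h2, mul_zero, add_zero, sub_zero, hbr x]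
      have h3 : (x.2 : ℝ) * U α (n - ks x) ≤ (x.2 : ℝ) * (exp (F α n) * N ^ (-(3 / 4) : ℝ) *
          (exp (-(a * ks x)) * ((1 - ν / 2) * (1 + 3 / 4 * (ks x / N)
            - ks x * (ks x - 1) / (2 * T 1 a) + (ks x : ℝ) ^ 4 / (4 * T 1 a ^ 2)
            + 2 * (ks x / N) ^ 2) - ν * (ks x / N) / 16))) :=
        mul_le_mul_of_nonneg_left (U_le1 h hn1 (not_lt.1 h2)) (Nat.cast_nonneg (α := ℝ) x.2)
      refine h3.trans (le_of_eq ?_)
      rw [tm_eq, pow_one]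
      have e1 : ν / (16 * N) * (x.2 * exp (-(a * ks x)) * ks x)
          = x.2 * exp (-(a * ks x)) * (ν * (ks x / N) / 16) := by
        field_simp
      rw [e1]
      ring
  have hsum : ∑ x ∈ Ix n, (x.2 : ℝ) * U α (n - ks x) ≤ exp (F α n) * N ^ (-(3 / 4) : ℝ) * (
      (1 - ν / 2) * (N + 3 / (4 * N) * T 1 a - (T 2 a - T 1 a) / (2 * T 1 a)
        + T 4 a / (4 * T 1 a ^ 2) + 2 / N ^ 2 * T 2 a)
      - ν / (16 * N) * (T 1 a - ∑' x : ℕ × ℕ, (if n < 2 * ks x then tm 1 a x else 0))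
      + y ^ 6 * ∑' x : ℕ × ℕ, (if n < 2 * ks x then tm 0 a x else 0)) := by
    refine (sum_le_sum hterm).trans ?_
    rw [← mul_sum]
    apply mul_le_mul_of_nonneg_left _ hFn.le
    have h1 := sum_le_hasSum (Ix n) ?_ H
    · have h2 : N = T 0 a := (h.T0 n hn1).symm
      conv_rhs => rw [show N + 3 / (4 * N) * T 1 a = T 0 a + 3 / (4 * N) * T 1 a by rw [h.T0 n hn1]]
      exact h1
    · intro x hx
      by_cases h2 : n < 2 * ks x
      · exact (mul_nonneg (by positivity) (htm 0 x)).trans (hbig x h2)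
      · have hx2 : x.2 = 0 := by
          by_contra h3
          apply hx
          have h4 : x.1 + 1 ≤ ks x := by
            unfold ks
            exact Nat.le_mul_of_pos_right _ (Nat.pos_of_ne_zero h3)
          have h5 : x.2 ≤ ks x := by
            unfold ks
            exact Nat.le_mul_of_pos_left _ (Nat.succ_pos _)
          unfold Ix
          rw [mem_filter, mem_product, mem_range, mem_range]
          exact ⟨⟨by omega, by omega⟩, by omega⟩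
        have h3 : ∀ j, tm j a x = 0 := by
          intro j
          rw [tm_eq, hx2]
          simp
        rw [h3, h3, h3, h3]
        simp
  refine hsum.trans ?_
  have htot := total (C := C) (N := N) (y := y) (ν := ν) (T1 := T 1 a) (T2 := T 2 a) (T4 := T 4 a)
    (t0 := ∑' x : ℕ × ℕ, (if n < 2 * ks x then tm 0 a x else 0))
    (t1 := ∑' x : ℕ × ℕ, (if n < 2 * ks x then tm 1 a x else 0)) hC hy1 hyN hνy
    (by
      have h1 := h.T1lo n hn1
      have h2 : N * √N = y ^ 12 := by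
        rw [hsq, hyN]
        ring
      rw [← hN, h2] at h1
      exact h1)
    (h.T2hi n hn1) (h.T4hi n hn1) ((le_abs_self _).trans (h.bal n hn1)) (h.tail n 0 hn1 (by norm_num))
    (h.tail n 1 hn1 le_rfl) hyY
  refine (mul_le_mul_of_nonneg_left htot hFn.le).trans (le_of_eq ?_)
  unfold U
  rw [if_neg (by omega)]
  ring

end Pool.Agent.W5h11.PZ
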